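import Mathlib

/- The table of structure constants of the 15-dimensional example, and finite checks. -/

namespace Pool.Agent.MP_9adac4_al

open Finset

/-- table of nonzero brackets -/
def cc (i j : Fin 15) : Bool :=
  Nat.testBit 19031246213983724296309481418987484470635060914039579103500608135582 (15 * i.val + j.val)

/-- structure constants over `F_2` -/
def cz (i j : Fin 15) : ZMod 2 := if cc i j then 1 else 0

/-- index of the sum of the weights -/
def ss (i j : Fin 15) : Fin 15 := Fin.ofNat 15 (((i.val + 1) ^^^ (j.val + 1)) - 1)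

/-- weights -/
def wt (i : Fin 15) (m : Fin 4) : ZMod 2 := if (i.val + 1).testBit m.val then 1 else 0

/-- coefficient of a generator of the envelope on a basis vector -/
def cf : Fin 15 ⊕ Fin 4 → Fin 15 → ZMod 2
  | .inl i, j => cz i j
  | .inr m, j => wt j m

/-- index shift of a generator of the envelope on a basis vector -/
def mv : Fin 15 ⊕ Fin 4 → Fin 15 → Fin 15
  | .inl i, j => ss i j
  | .inr _, j => j

lemma cz_diag : ∀ i, cz i i = 0 := by decide +kernel

lemma cz_symm : ∀ i j, cz i j = cz j i := by decide +kernel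

lemma ss_symm : ∀ i j, ss i j = ss j i := by decide +kernel

lemma cc_jac : ∀ i j k : Fin 15,
    ((cc j k && cc i (ss j k)) = ((cc i j && cc (ss i j) k) ^^ (cc i k && cc j (ss i k)))) ∧
    ((cc j k && cc i (ss j k)) = true → (cc i j && cc (ss i j) k) = true →
      ss i (ss j k) = ss (ss i j) k) ∧
    ((cc j k && cc i (ss j k)) = true → (cc i k && cc j (ss i k)) = true →
      ss i (ss j k) = ss j (ss i k)) ∧
    ((cc i j && cc (ss i j) k) = true → (cc i k && cc j (ss i k)) = true →
      ss (ss i j) k = ss j (ss i k)) := by decide +kernel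

/-- coefficients of the square of `ad e_i` in the toral basis -/
def qm (i : Fin 15) (m : Fin 4) : ZMod 2 :=
  cz i (Fin.ofNat 15 (2 ^ m.val - 1)) * cz i (ss i (Fin.ofNat 15 (2 ^ m.val - 1)))

lemma sq_coef : ∀ i j : Fin 15, cz i j * cz i (ss i j) = ∑ m : Fin 4, qm i m * wt j m ∧
    (cz i j = 0 ∨ ss i (ss i j) = j) := by decide +kernel

lemma wt_ss : ∀ i j : Fin 15, ∀ m : Fin 4, cz i j * wt (ss i j) m = cz i j * (wt i m + wt j m) := by
  decide +kernel

lemma wt_inj : ∀ i j : Fin 15, (∀ m, wt i m = wt j m) → i = j := by decide +kernel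

lemma wt_ne : ∀ i : Fin 15, ∃ m, wt i m ≠ 0 := by decide +kernel

lemma wt_surj : ∀ a b c d : ZMod 2, (a = 0 ∧ b = 0 ∧ c = 0 ∧ d = 0) ∨
    ∃ i : Fin 15, wt i 0 = a ∧ wt i 1 = b ∧ wt i 2 = c ∧ wt i 3 = d := by decide +kernel

lemma conn : ∀ j k : Fin 15, (∃ i, cz i j = 1 ∧ ss i j = k) ∨
    (∃ i i', cz i j = 1 ∧ cz i' (ss i j) = 1 ∧ ss i' (ss i j) = k) ∨
    (∃ i i' i'', cz i j = 1 ∧ cz i' (ss i j) = 1 ∧ cz i'' (ss i' (ss i j)) = 1 ∧
      ss i'' (ss i' (ss i j)) = k) := by decide +kernel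

end Pool.Agent.MP_9adac4_al
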