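import Pool.Agent.MP_9adac4_al.Data

/- Vanishing of the trilinear trace form on the generators. -/

namespace Pool.Agent.MP_9adac4_al

lemma tr_three : ∀ g1 g2 g3 : Fin 15 ⊕ Fin 4,
    ∑ j : Fin 15, (if mv g1 (mv g2 (mv g3 j)) = j then
      cf g3 j * cf g2 (mv g3 j) * cf g1 (mv g2 (mv g3 j)) else 0) = 0 := by decide +kernel

end Pool.Agent.MP_9adac4_al
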