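import Pool.Agent.MP_9adac4_al.Data

/- Enumeration of the closed 7-element sets of weights. -/

namespace Pool.Agent.MP_9adac4_al

/-- candidate ideals, as bit masks -/
def cand : List ℕ := [4096, 1112, 2048, 1, 2, 16384, 8192, 4, 95, 903, 25625, 24993, 11346, 10914, 19532, 19236]

/-- `J` is stable under brackets with `S` -/
def closedB (S J : ℕ) : Bool :=
  (List.finRange 15).all fun i => !S.testBit i.val || (List.finRange 15).all fun j =>
    !J.testBit j.val || !cc i j || J.testBit (ss i j).val

/-- the check for one subset -/
def chk (m : ℕ) : Bool :=
  (List.range 15).countP (fun i => m.testBit i) != 7 || !closedB m m ||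
    cand.any fun J => (List.finRange 15).all (fun i => !J.testBit i.val || m.testBit i.val) &&
      (List.finRange 15).any (fun i => J.testBit i.val) &&
      (List.finRange 15).any (fun i => m.testBit i.val && !J.testBit i.val) && closedB m J

lemma chk_all : ((List.range 128).all fun a => (List.range 256).all fun b => chk (256 * a + b))
    = true := by decide +kernel

end Pool.Agent.MP_9adac4_al
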