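import Mathlib

namespace Pool.Agent.MP_9adac4_al

/-- The 2-envelope of a centreless Lie algebra `L`, realised in `End L`: the smallest subspace
containing `ad L` and closed under commutators and squares. -/
def envelope (K L : Type*) [Field K] [LieRing L] [LieAlgebra K L] :
    Submodule K (Module.End K L) :=
  sInf {M | (∀ x : L, LieAlgebra.ad K L x ∈ M) ∧ (∀ y ∈ M, ∀ z ∈ M, y * z - z * y ∈ M) ∧
    ∀ y ∈ M, y ^ 2 ∈ M}

/-- A torus: an abelian subalgebra of the 2-envelope consisting of semisimple elements. -/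
def IsTorus (K L : Type*) [Field K] [LieRing L] [LieAlgebra K L]
    (T : Submodule K (Module.End K L)) : Prop :=
  T ≤ envelope K L ∧ (∀ y ∈ T, ∀ z ∈ T, y * z = z * y) ∧
    ∀ y ∈ T, y ∈ Submodule.span K {z | ∃ i : ℕ, 1 ≤ i ∧ z = y ^ 2 ^ i}

/-- The weight space of weight `α ∈ F_2^n` for `t_1, ..., t_n`. -/
def weightSpace {K L : Type*} [Field K] [LieRing L] [LieAlgebra K L] {n : ℕ}
    (t : Fin n → Module.End K L) (α : Fin n → ZMod 2) : Submodule K L :=
  ⨅ i, (t i).eigenspace ((α i).val : K)

/-- `t_1, ..., t_n` is a toral basis of a torus `T` giving a thin decomposition of `L`. -/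
structure IsThin {K L : Type*} [Field K] [LieRing L] [LieAlgebra K L] {n : ℕ}
    (t : Fin n → Module.End K L) : Prop where
  dim : Module.finrank K L = 2 ^ n - 1
  toralRank : IsGreatest {d | ∃ T, IsTorus K L T ∧ Module.finrank K T = d} n
  torus : IsTorus K L (Submodule.span K (Set.range t))
  indep : LinearIndependent K t
  toral : ∀ i, t i ^ 2 = t i
  disjoint : ∀ x : L, LieAlgebra.ad K L x ∈ Submodule.span K (Set.range t) → x = 0
  zeroWeight : weightSpace t 0 = ⊥
  oneDim : ∀ α ≠ 0, Module.finrank K (weightSpace t α) = 1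

/-- A graded subalgebra: a sum of weight spaces over a set of nonzero weights. -/
def IsGraded {K L : Type*} [Field K] [LieRing L] [LieAlgebra K L] {n : ℕ}
    (t : Fin n → Module.End K L) (M : LieSubalgebra K L) : Prop :=
  ∃ S : Set (Fin n → ZMod 2), 0 ∉ S ∧ M.toSubmodule = ⨆ α ∈ S, weightSpace t α

end Pool.Agent.MP_9adac4_al
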