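import Pool.Agent.MP_9adac4_al.Defs

/- Basic facts on the envelope and on weight spaces. -/

namespace Pool.Agent.MP_9adac4_al

open LieAlgebra

attribute [local instance 100] LieRing.ofAssociativeRing

variable {K L : Type*} [Field K] [LieRing L] [LieAlgebra K L]

lemma envelope_le (M : Submodule K (Module.End K L)) (h1 : ∀ x : L, ad K L x ∈ M)
    (h2 : ∀ y ∈ M, ∀ z ∈ M, y * z - z * y ∈ M) (h3 : ∀ y ∈ M, y ^ 2 ∈ M) : envelope K L ≤ M :=
  sInf_le ⟨h1, h2, h3⟩

lemma ad_mem_envelope (x : L) : ad K L x ∈ envelope K L :=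
  Submodule.mem_sInf.2 (fun _ h => h.1 x)

lemma sq_mem_envelope {y : Module.End K L} (hy : y ∈ envelope K L) : y ^ 2 ∈ envelope K L :=
  Submodule.mem_sInf.2 (fun M h => h.2.2 y (Submodule.mem_sInf.1 hy M h))

lemma add_self [CharP K 2] {V : Type*} [AddCommGroup V] [Module K V] (v : V) : v + v = 0 := by
  rw [← two_smul K v, CharTwo.two_eq_zero, zero_smul]

/-- derivations, as a subspace of the endomorphisms -/
def Der (K L : Type*) [Field K] [LieRing L] [LieAlgebra K L] : Submodule K (Module.End K L) where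
  carrier := {d | ∀ a b : L, d ⁅a, b⁆ = ⁅d a, b⁆ + ⁅a, d b⁆}
  add_mem' := by
    intro d e hd he a b
    simp only [LinearMap.add_apply, hd a b, he a b, add_lie, lie_add]; abel
  zero_mem' := by intro a b; simp
  smul_mem' := by
    intro r d hd a b
    simp only [LinearMap.smul_apply, hd a b, smul_lie, lie_smul, smul_add]

lemma Der.comm {d e : Module.End K L} (hd : d ∈ Der K L) (he : e ∈ Der K L) :
    d * e - e * d ∈ Der K L := by
  intro a b
  simp only [LinearMap.sub_apply, Module.End.mul_apply, hd a b, he a b, map_add, hd _ _, he _ _,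
    sub_lie, lie_sub]
  abel

lemma Der.sq [CharP K 2] {d : Module.End K L} (hd : d ∈ Der K L) : d ^ 2 ∈ Der K L := by
  intro a b
  simp only [pow_two, Module.End.mul_apply, hd a b, map_add, hd _ _]
  have := add_self (K := K) ⁅d a, d b⁆
  calc _ = ⁅d (d a), b⁆ + (⁅d a, d b⁆ + ⁅d a, d b⁆) + ⁅a, d (d b)⁆ := by abel
    _ = _ := by rw [this, add_zero]

lemma ad_mem_Der (x : L) : ad K L x ∈ Der K L := by
  intro a b
  simp only [ad_apply, leibniz_lie x a b]

lemma envelope_le_Der [CharP K 2] : envelope K L ≤ Der K L :=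
  envelope_le _ ad_mem_Der (fun _ hy _ hz => Der.comm hy hz) (fun _ hy => Der.sq hy)

lemma Der.mul_ad {d : Module.End K L} (hd : d ∈ Der K L) (x : L) :
    d * ad K L x = ad K L x * d + ad K L (d x) := by
  ext y
  simp only [Module.End.mul_apply, ad_apply, LinearMap.add_apply, hd x y]; abel

lemma ad_mul_ad (x y : L) : ad K L x * ad K L y = ad K L y * ad K L x + ad K L ⁅x, y⁆ :=
  Der.mul_ad (ad_mem_Der x) y

lemma mem_weightSpace {n : ℕ} {t : Fin n → Module.End K L} {α : Fin n → ZMod 2} {x : L} :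
    x ∈ weightSpace t α ↔ ∀ i, t i x = ((α i).val : K) • x := by
  simp [weightSpace, Submodule.mem_iInf]

lemma val_add_cast [CharP K 2] (x y : ZMod 2) :
    (((x + y).val : ℕ) : K) = (x.val : K) + (y.val : K) := by
  simp

lemma lie_mem_weightSpace [CharP K 2] {n : ℕ} {t : Fin n → Module.End K L}
    (ht : ∀ i, t i ∈ Der K L) {α β : Fin n → ZMod 2} {x y : L} (hx : x ∈ weightSpace t α)
    (hy : y ∈ weightSpace t β) : ⁅x, y⁆ ∈ weightSpace t (α + β) := by
  rw [mem_weightSpace] at hx hy ⊢
  intro i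
  rw [ht i, hx, hy, Pi.add_apply, val_add_cast, smul_lie, lie_smul, add_smul]

lemma iSup_weightSpace {n : ℕ} {t : Fin n → Module.End K L} (h1 : ∀ i, t i ^ 2 = t i)
    (h2 : ∀ i j, t i * t j = t j * t i) : ⨆ α, weightSpace t α = ⊤ := by
  classical
  have key : ∀ s : Finset (Fin n), ∀ x : L, (∃ α : Fin n → ZMod 2,
      ∀ i ∉ s, t i x = ((α i).val : K) • x) → x ∈ ⨆ α, weightSpace t α := by
    intro s
    induction s using Finset.induction_on with
    | empty =>
      rintro x ⟨α, h⟩
      exact Submodule.mem_iSup_of_mem α (mem_weightSpace.2 (fun i => h i (by simp)))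
    | insert j s hj ih =>
      rintro x ⟨α, h⟩
      have e : x = t j x + (x - t j x) := by abel
      have hjj : t j (t j x) = t j x := by
        have := congrArg (fun f : Module.End K L => f x) (h1 j)
        simpa [pow_two] using this
      have hij : ∀ i, t i (t j x) = t j (t i x) := fun i => by
        have := congrArg (fun f : Module.End K L => f x) (h2 i j)
        simpa using this
      rw [e]
      apply Submodule.add_mem
      · refine ih _ ⟨Function.update α j 1, fun i hi => ?_⟩
        by_cases hij' : i = j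
        · subst hij'; simp [hjj, ZMod.val_one]
        · rw [Function.update_of_ne hij', hij, h i (by simp [hij', hi]), map_smul]
      · refine ih _ ⟨Function.update α j 0, fun i hi => ?_⟩
        by_cases hij' : i = j
        · subst hij'; simp [hjj]
        · rw [Function.update_of_ne hij', map_sub, hij, h i (by simp [hij', hi]), map_smul,
            smul_sub]
  rw [eq_top_iff]
  intro x _
  exact key Finset.univ x ⟨0, by simp⟩

/-- the space `ad L + D` is closed under commutators and squares -/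
lemma envelope_le_sup [CharP K 2] (D : Submodule K (Module.End K L)) (hD : D ≤ Der K L)
    (h2 : ∀ y ∈ D, ∀ z ∈ D, y * z - z * y ∈ D) (h3 : ∀ y ∈ D, y ^ 2 ∈ D)
    (s : Set L) (hs : Submodule.span K s = ⊤) (h4 : ∀ x ∈ s, ad K L x ^ 2 ∈ D) :
    ∀ y ∈ envelope K L, ∃ x : L, ∃ d ∈ D, y = ad K L x + d := by
  let M : Submodule K (Module.End K L) := LinearMap.range (ad K L).toLinearMap ⊔ D
  have hM : ∀ y, y ∈ M ↔ ∃ x : L, ∃ d ∈ D, y = ad K L x + d := by
    intro y
    simp only [M, Submodule.mem_sup, LinearMap.mem_range, LieHom.coe_toLinearMap]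
    constructor
    · rintro ⟨_, ⟨x, rfl⟩, d, hd, rfl⟩; exact ⟨x, d, hd, rfl⟩
    · rintro ⟨x, d, hd, rfl⟩; exact ⟨_, ⟨x, rfl⟩, d, hd, rfl⟩
  have had : ∀ x : L, ad K L x ∈ M := fun x => (hM _).2 ⟨x, 0, D.zero_mem, by simp⟩
  have hDM : ∀ d ∈ D, d ∈ M := fun d hd => (hM _).2 ⟨0, d, hd, by simp⟩
  have hsq : ∀ x : L, ad K L x ^ 2 ∈ M := by
    intro x
    have hx : x ∈ Submodule.span K s := by rw [hs]; trivial
    induction hx using Submodule.span_induction with
    | mem x hx => exact hDM _ (h4 x hx)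
    | zero => simp
    | add x y _ _ hx hy =>
      have e : ad K L (x + y) ^ 2 = ad K L x ^ 2 + ad K L y ^ 2 + ad K L ⁅x, y⁆ := by
        have := add_self (K := K) (ad K L y * ad K L x)
        rw [map_add, pow_two, add_mul, mul_add, mul_add, ad_mul_ad x y, pow_two, pow_two]
        calc _ = ad K L x * ad K L x + ad K L y * ad K L y + ad K L ⁅x, y⁆ +
          (ad K L y * ad K L x + ad K L y * ad K L x) := by abel
          _ = _ := by rw [this, add_zero]
      rw [e]
      exact M.add_mem (M.add_mem hx hy) (had _)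
    | smul r x _ hx => rw [map_smul, smul_pow]; exact M.smul_mem _ hx
  intro y hy
  rw [← hM]
  refine envelope_le M had ?_ ?_ hy
  · intro y hy z hz
    obtain ⟨x, d, hd, rfl⟩ := (hM _).1 hy
    obtain ⟨x', d', hd', rfl⟩ := (hM _).1 hz
    have e : (ad K L x + d) * (ad K L x' + d') - (ad K L x' + d') * (ad K L x + d) =
        ad K L ⁅x, x'⁆ + ad K L (d x') - ad K L (d' x) + (d * d' - d' * d) := by
      simp only [add_mul, mul_add]
      rw [ad_mul_ad x x', Der.mul_ad (hD hd) x', Der.mul_ad (hD hd') x]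
      abel
    rw [e]
    exact M.add_mem (M.sub_mem (M.add_mem (had _) (had _)) (had _)) (hDM _ (h2 _ hd _ hd'))
  · intro y hy
    obtain ⟨x, d, hd, rfl⟩ := (hM _).1 hy
    have e : (ad K L x + d) ^ 2 = ad K L x ^ 2 + ad K L (d x) + d ^ 2 := by
      have := add_self (K := K) (ad K L x * d)
      rw [pow_two, add_mul, mul_add, mul_add, Der.mul_ad (hD hd) x, pow_two, pow_two]
      calc _ = ad K L x * ad K L x + ad K L (d x) + d * d +
          (ad K L x * d + ad K L x * d) := by abel
        _ = _ := by rw [this, add_zero]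
    rw [e]
    exact M.add_mem (M.add_mem (hsq x) (had _)) (hDM _ (h3 _ hd))

end Pool.Agent.MP_9adac4_al
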