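import Pool.Agent.MP_9adac4_al.Env
import Pool.Agent.MP_9adac4_al.Data2

/- The 15-dimensional example: construction, envelope, simplicity, trace form. -/

namespace Pool.Agent.MP_9adac4_al

open Finset Module LieAlgebra

attribute [local instance 100] LieRing.ofAssociativeRing

lemma basis_ind {K V ι : Type*} [Field K] [AddCommGroup V] [Module K V] (b : Basis ι K V)
    (P : V → Prop) (hb : ∀ i, P (b i)) (h0 : P 0) (ha : ∀ x y, P x → P y → P (x + y))
    (hs : ∀ (r : K) x, P x → P (r • x)) (x : V) : P x := by
  have hx : x ∈ Submodule.span K (Set.range b) := by rw [b.span_eq]; trivial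
  induction hx using Submodule.span_induction with
  | mem x hx => obtain ⟨i, rfl⟩ := hx; exact hb i
  | zero => exact h0
  | add x y _ _ hx hy => exact ha x y hx hy
  | smul r x _ hx => exact hs r x hx

variable (K : Type*) [Field K] [CharP K 2]

/-- underlying space -/
def LL : Type _ := Fin 15 → K

instance : AddCommGroup (LL K) := inferInstanceAs (AddCommGroup (Fin 15 → K))
instance : Module K (LL K) := inferInstanceAs (Module K (Fin 15 → K))

/-- standard basis -/
noncomputable def bb : Basis (Fin 15) K (LL K) := Pi.basisFun K (Fin 15)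

instance : FiniteDimensional K (LL K) := Module.Finite.of_basis (bb K)

/-- the prime field inside `K` -/
def kk : ZMod 2 →+* K := ZMod.castHom (dvd_refl 2) K

lemma kk_val (x : ZMod 2) : ((x.val : ℕ) : K) = kk K x := by simp [kk]

/-- the bracket -/
noncomputable def br : LL K →ₗ[K] LL K →ₗ[K] LL K :=
  (bb K).constr K (fun i => (bb K).constr K (fun j => kk K (cz i j) • bb K (ss i j)))

lemma br_bb (i j : Fin 15) : br K (bb K i) (bb K j) = kk K (cz i j) • bb K (ss i j) := by
  simp [br]

lemma br_symm (x y : LL K) : br K x y = br K y x := by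
  induction x using basis_ind (bb K) with
  | hb i =>
    induction y using basis_ind (bb K) with
    | hb j => rw [br_bb, br_bb, cz_symm, ss_symm]
    | h0 => simp
    | ha x y hx hy => simp [hx, hy]
    | hs r x hx => simp [hx]
  | h0 => simp
  | ha x y hx hy => simp [hx, hy]
  | hs r x hx => simp [hx]

lemma br_self (x : LL K) : br K x x = 0 := by
  induction x using basis_ind (bb K) with
  | hb i => rw [br_bb, cz_diag]; simp
  | h0 => simp
  | ha x y hx hy =>
    simp only [map_add, LinearMap.add_apply, hx, hy, zero_add, add_zero, br_symm K y x]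
    exact add_self (K := K) _
  | hs r x hx => simp [hx]

lemma br_jac_bb (i j k : Fin 15) : br K (bb K i) (br K (bb K j) (bb K k)) =
    br K (br K (bb K i) (bb K j)) (bb K k) + br K (bb K j) (br K (bb K i) (bb K k)) := by
  obtain ⟨h1, h2, h3, h4⟩ := cc_jac i j k
  simp only [br_bb, map_smul, LinearMap.smul_apply, smul_smul, ← map_mul]
  have e : ∀ a b c d : Fin 15, cz a b * cz c d = if (cc a b && cc c d) = true then 1 else 0 := by
    intro a b c d; unfold cz; cases cc a b <;> cases cc c d <;> simp
  rw [e, e, e, h1]
  rw [h1] at h2 h3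
  generalize (cc i j && cc (ss i j) k) = p at *
  generalize (cc i k && cc j (ss i k)) = q at *
  cases p <;> cases q
  · simp
  · simp [h3 rfl rfl]
  · simp [h2 rfl rfl]
  · simp [h4 rfl rfl, add_self (K := K)]

lemma br_jac (x y z : LL K) : br K x (br K y z) = br K (br K x y) z + br K y (br K x z) := by
  induction x using basis_ind (bb K) with
  | hb i =>
    induction y using basis_ind (bb K) with
    | hb j =>
      induction z using basis_ind (bb K) with
      | hb k => exact br_jac_bb K i j k
      | h0 => simp
      | ha x y hx hy => simp only [map_add, hx, hy]; abel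
      | hs r x hx => simp only [map_smul, hx, smul_add]
    | h0 => simp
    | ha x y hx hy => simp only [map_add, LinearMap.add_apply, hx, hy]; abel
    | hs r x hx => simp only [map_smul, LinearMap.smul_apply, hx, smul_add]
  | h0 => simp
  | ha x y hx hy => simp only [map_add, LinearMap.add_apply, hx, hy]; abel
  | hs r x hx => simp only [map_smul, LinearMap.smul_apply, hx, smul_add]

noncomputable instance : LieRing (LL K) where
  bracket x y := br K x y
  add_lie x y z := by simp
  lie_add x y z := by simp
  lie_self := br_self K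
  leibniz_lie := br_jac K

noncomputable instance : LieAlgebra K (LL K) where
  lie_smul r x y := map_smul (br K x) r y

lemma lie_bb (i j : Fin 15) : ⁅bb K i, bb K j⁆ = kk K (cz i j) • bb K (ss i j) := br_bb K i j

/-- diagonal operators -/
noncomputable def dg : (Fin 15 → K) →ₐ[K] Module.End K (LL K) := Algebra.lmul K (Fin 15 → K)

omit [CharP K 2] in
lemma dg_apply (μ : Fin 15 → K) (x : LL K) (k : Fin 15) : dg K μ x k = μ k * x k := rfl

omit [CharP K 2] in
lemma dg_bb (μ : Fin 15 → K) (j : Fin 15) : dg K μ (bb K j) = μ j • bb K j := by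
  funext k
  rw [dg_apply]
  change _ = μ j * bb K j k
  have : bb K j = Pi.single j (1 : K) := Pi.basisFun_apply K (Fin 15) j
  rw [this]
  by_cases h : k = j
  · rw [h]
  · simp [Pi.single_eq_of_ne h]

/-- the toral basis -/
noncomputable def tt (m : Fin 4) : Module.End K (LL K) := dg K (fun j => kk K (wt j m))

lemma tt_bb (m : Fin 4) (j : Fin 15) : tt K m (bb K j) = kk K (wt j m) • bb K j := dg_bb K _ j

lemma tt_sq (m : Fin 4) : tt K m ^ 2 = tt K m := by
  unfold tt
  rw [← map_pow]
  congr 1
  funext j
  have : ∀ x : ZMod 2, x ^ 2 = x := by decide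
  simp only [Pi.pow_apply, ← map_pow, this]

lemma tt_Der (m : Fin 4) : tt K m ∈ Der K (LL K) := by
  intro x y
  induction x using basis_ind (bb K) with
  | hb i =>
    induction y using basis_ind (bb K) with
    | hb j =>
      simp only [lie_bb, tt_bb, map_smul, smul_lie, lie_smul, smul_smul, ← map_mul, ← add_smul,
        ← map_add, wt_ss]
      congr 2; ring
    | h0 => simp
    | ha x y hx hy => simp only [map_add, lie_add, hx, hy]; abel
    | hs r x hx => simp only [map_smul, lie_smul, hx, smul_add]
  | h0 => simp
  | ha x y hx hy => simp only [map_add, add_lie, hx, hy]; abel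
  | hs r x hx => simp only [map_smul, smul_lie, hx, smul_add]

lemma ad_sq (i : Fin 15) : ad K (LL K) (bb K i) ^ 2 = ∑ m, kk K (qm i m) • tt K m := by
  apply (bb K).ext
  intro j
  obtain ⟨h1, h2⟩ := sq_coef i j
  simp only [pow_two, Module.End.mul_apply, ad_apply, lie_bb, lie_smul, smul_smul, ← map_mul,
    LinearMap.sum_apply, LinearMap.smul_apply, tt_bb, ← sum_smul, ← map_sum, ← h1]
  rcases h2 with h | h
  · simp [h]
  · rw [h]

lemma tt_mem (m : Fin 4) : tt K m ∈ envelope K (LL K) := by
  have h := fun i => sq_mem_envelope (ad_mem_envelope (K := K) (bb K i))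
  have q5 : qm 5 = ![0, 0, 0, 1] := by decide +kernel
  have q11 : qm 11 = ![0, 1, 0, 0] := by decide +kernel
  have q1 : qm 1 = ![1, 0, 0, 1] := by decide +kernel
  have q14 : qm 14 = ![1, 0, 1, 0] := by decide +kernel
  have h3 : tt K 3 ∈ envelope K (LL K) := by simpa [ad_sq, Fin.sum_univ_four, q5] using h 5
  have h1 : tt K 1 ∈ envelope K (LL K) := by simpa [ad_sq, Fin.sum_univ_four, q11] using h 11
  have h0 : tt K 0 ∈ envelope K (LL K) := by
    have : tt K 0 + tt K 3 ∈ envelope K (LL K) := by
      simpa [ad_sq, Fin.sum_univ_four, q1] using h 1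
    simpa using Submodule.sub_mem _ this h3
  have h2 : tt K 2 ∈ envelope K (LL K) := by
    have : tt K 0 + tt K 2 ∈ envelope K (LL K) := by
      simpa [ad_sq, Fin.sum_univ_four, q14] using h 14
    simpa using Submodule.sub_mem _ this h0
  fin_cases m
  exacts [h0, h1, h2, h3]

lemma span_tt_dg {y : Module.End K (LL K)} (hy : y ∈ Submodule.span K (Set.range (tt K))) :
    ∃ μ, y = dg K μ := by
  induction hy using Submodule.span_induction with
  | mem x hx => obtain ⟨m, rfl⟩ := hx; exact ⟨_, rfl⟩
  | zero => exact ⟨0, by simp⟩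
  | add a b _ _ ha hb =>
    obtain ⟨μ, rfl⟩ := ha; obtain ⟨ν, rfl⟩ := hb; exact ⟨μ + ν, by simp⟩
  | smul r a _ ha => obtain ⟨μ, rfl⟩ := ha; exact ⟨r • μ, by simp⟩

lemma span_tt_comm {y z : Module.End K (LL K)} (hy : y ∈ Submodule.span K (Set.range (tt K)))
    (hz : z ∈ Submodule.span K (Set.range (tt K))) : y * z = z * y := by
  obtain ⟨μ, rfl⟩ := span_tt_dg K hy
  obtain ⟨ν, rfl⟩ := span_tt_dg K hz
  rw [← map_mul, ← map_mul, mul_comm]

lemma span_tt_sq {y : Module.End K (LL K)} (hy : y ∈ Submodule.span K (Set.range (tt K))) :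
    y ^ 2 ∈ Submodule.span K (Set.range (tt K)) := by
  induction hy using Submodule.span_induction with
  | mem x hx => obtain ⟨m, rfl⟩ := hx; rw [tt_sq]; exact Submodule.subset_span ⟨m, rfl⟩
  | zero => simp
  | add a b ha' hb' ha hb =>
    have : (a + b) ^ 2 = a ^ 2 + b ^ 2 := by
      have := add_self (K := K) (a * b)
      rw [pow_two, pow_two, pow_two, add_mul, mul_add, mul_add, ← span_tt_comm K ha' hb']
      calc _ = a * a + b * b + (a * b + a * b) := by abel
        _ = _ := by rw [this, add_zero]
    rw [this]; exact Submodule.add_mem _ ha hb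
  | smul r a _ ha => rw [smul_pow]; exact Submodule.smul_mem _ _ ha

/-- generators of the envelope -/
noncomputable def gen : Fin 15 ⊕ Fin 4 → Module.End K (LL K)
  | .inl i => ad K (LL K) (bb K i)
  | .inr m => tt K m

lemma gen_bb (g : Fin 15 ⊕ Fin 4) (j : Fin 15) :
    gen K g (bb K j) = kk K (cf g j) • bb K (mv g j) := by
  cases g with
  | inl i => exact lie_bb K i j
  | inr m => exact tt_bb K m j

lemma gen_mem (g : Fin 15 ⊕ Fin 4) : gen K g ∈ envelope K (LL K) := by
  cases g with
  | inl i => exact ad_mem_envelope _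
  | inr m => exact tt_mem K m

lemma envelope_le_gen : envelope K (LL K) ≤ Submodule.span K (Set.range (gen K)) := by
  intro y hy
  obtain ⟨x, d, hd, rfl⟩ := envelope_le_sup (Submodule.span K (Set.range (tt K)))
    (Submodule.span_le.2 (by rintro _ ⟨m, rfl⟩; exact tt_Der K m))
    (fun y hy z hz => by rw [span_tt_comm K hy hz]; simp) (fun y hy => span_tt_sq K hy)
    (Set.range (bb K)) (bb K).span_eq
    (by
      rintro _ ⟨i, rfl⟩
      rw [ad_sq]
      exact Submodule.sum_mem _ (fun m _ =>
        Submodule.smul_mem _ _ (Submodule.subset_span ⟨m, rfl⟩))) y hy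
  apply Submodule.add_mem
  · clear hy
    induction x using basis_ind (bb K) with
    | hb i => exact Submodule.subset_span ⟨.inl i, rfl⟩
    | h0 => simp
    | ha x y hx hy => rw [map_add]; exact Submodule.add_mem _ hx hy
    | hs r x hx => rw [map_smul]; exact Submodule.smul_mem _ _ hx
  · exact Submodule.span_mono (by rintro _ ⟨m, rfl⟩; exact ⟨.inr m, rfl⟩) hd

lemma trace_three (a b c : Module.End K (LL K)) (ha : a ∈ Submodule.span K (Set.range (gen K)))
    (hb : b ∈ Submodule.span K (Set.range (gen K)))
    (hc : c ∈ Submodule.span K (Set.range (gen K))) :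
    LinearMap.trace K (LL K) (a * b * c) = 0 := by
  induction ha using Submodule.span_induction with
  | mem a ha =>
    induction hb using Submodule.span_induction with
    | mem b hb =>
      induction hc using Submodule.span_induction with
      | mem c hc =>
        obtain ⟨g1, rfl⟩ := ha
        obtain ⟨g2, rfl⟩ := hb
        obtain ⟨g3, rfl⟩ := hc
        have := congrArg (kk K) (tr_three g1 g2 g3)
        rw [map_sum, map_zero] at this
        rw [LinearMap.trace_eq_matrix_trace K (bb K), Matrix.trace, ← this]
        apply sum_congr rfl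
        intro j _
        simp only [Matrix.diag_apply, LinearMap.toMatrix_apply, Module.End.mul_apply, gen_bb,
          map_smul, Basis.repr_self, Finsupp.smul_apply, Finsupp.single_apply, smul_eq_mul]
        split_ifs <;> simp [mul_assoc]
      | zero => simp
      | add x y _ _ hx hy => rw [mul_add, map_add, hx, hy, add_zero]
      | smul r x _ hx => rw [mul_smul_comm, map_smul, hx, smul_zero]
    | zero => simp
    | add x y _ _ hx hy => rw [mul_add, add_mul, map_add, hx, hy, add_zero]
    | smul r x _ hx => rw [mul_smul_comm, smul_mul_assoc, map_smul, hx, smul_zero]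
  | zero => simp
  | add x y _ _ hx hy => rw [add_mul, add_mul, map_add, hx, hy, add_zero]
  | smul r x _ hx => rw [smul_mul_assoc, smul_mul_assoc, map_smul, hx, smul_zero]

instance : IsSimple K (LL K) := by
  constructor
  · intro I
    by_cases h : I = ⊥
    · exact Or.inl h
    right
    let M : Submodule K (Module.End K (LL K)) :=
      { carrier := {y | ∀ x ∈ I, y x ∈ I}
        add_mem' := fun ha hb x hx => I.toSubmodule.add_mem (ha x hx) (hb x hx)
        zero_mem' := fun x _ => I.toSubmodule.zero_mem
        smul_mem' := fun r a ha x hx => I.toSubmodule.smul_mem r (ha x hx) }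
    have hM : envelope K (LL K) ≤ M := envelope_le M
      (fun x y hy => lie_mem_right K _ I x y hy)
      (fun y hy z hz x hx => I.toSubmodule.sub_mem (hy _ (hz x hx)) (hz _ (hy x hx)))
      (fun y hy x hx => by rw [pow_two]; exact hy _ (hy x hx))
    have hp : ∀ (m : Fin 4) (a : ZMod 2), ∀ x ∈ I,
        dg K (fun k => if wt k m = a then 1 else 0) x ∈ I := by
      intro m a x hx
      have h1 := hM (tt_mem K m) x hx
      have z01 : ∀ x : ZMod 2, x = 0 ∨ x = 1 := by decide
      rcases z01 a with rfl | rfl
      · have h5 : x - tt K m x ∈ I := I.toSubmodule.sub_mem hx h1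
        convert h5 using 1
        funext k
        change _ = x k - tt K m x k
        rw [tt, dg_apply, dg_apply]
        rcases z01 (wt k m) with h2 | h2 <;> simp [h2]
      · convert h1 using 1
        funext k
        rw [tt, dg_apply, dg_apply]
        rcases z01 (wt k m) with h2 | h2 <;> simp [h2]
    obtain ⟨x, hx, hx0⟩ : ∃ x ∈ I, x ≠ 0 := by
      by_contra h1; push Not at h1
      exact h ((LieSubmodule.eq_bot_iff I).2 h1)
    obtain ⟨j, hj⟩ : ∃ j, x j ≠ 0 := by
      by_contra h1; push Not at h1; exact hx0 (funext h1)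
    have h1 := hp 0 (wt j 0) _ (hp 1 (wt j 1) _ (hp 2 (wt j 2) _ (hp 3 (wt j 3) _ hx)))
    have h2 : bb K j ∈ I := by
      have h3 : (x j)⁻¹ • _ ∈ I := I.toSubmodule.smul_mem (x j)⁻¹ h1
      convert h3 using 1
      funext k
      have : bb K j = Pi.single j (1 : K) := Pi.basisFun_apply K (Fin 15) j
      rw [this]
      change _ = (x j)⁻¹ * _
      simp only [dg_apply]
      by_cases hk : k = j
      · subst hk; simp [hj]
      · rw [Pi.single_eq_of_ne hk]
        have : ¬ ∀ m, wt k m = wt j m := fun h4 => hk (wt_inj _ _ h4)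
        rw [Fin.forall_fin_succ, Fin.forall_fin_succ, Fin.forall_fin_two] at this
        split_ifs <;> simp_all
    have step : ∀ i j, cz i j = 1 → bb K j ∈ I → bb K (ss i j) ∈ I := by
      intro i j h1 h2
      have := lie_mem_right K _ I (bb K i) _ h2
      rwa [lie_bb, h1, map_one, one_smul] at this
    have h3 : ∀ k, bb K k ∈ I := by
      intro k
      rcases conn j k with ⟨i, a1, rfl⟩ | ⟨i, i', a1, a2, rfl⟩ | ⟨i, i', i'', a1, a2, a3, rfl⟩
      · exact step _ _ a1 h2
      · exact step _ _ a2 (step _ _ a1 h2)
      · exact step _ _ a3 (step _ _ a2 (step _ _ a1 h2))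
    rw [eq_top_iff]
    intro y _
    induction y using basis_ind (bb K) with
    | hb i => exact h3 i
    | h0 => exact I.toSubmodule.zero_mem
    | ha x y hx hy => exact I.toSubmodule.add_mem (hx trivial) (hy trivial)
    | hs r x hx => exact I.toSubmodule.smul_mem r (hx trivial)
  · intro h
    have := h.trivial (bb K 0) (bb K 1)
    have e : cz 0 1 = 1 := by decide +kernel
    rw [lie_bb, e, map_one, one_smul] at this
    exact (bb K).ne_zero _ this

end Pool.Agent.MP_9adac4_al
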