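import Pool.Agent.MP_9adac4_al.SC

/- Existence of a full line. -/

namespace Pool.Agent.MP_9adac4_al

open Finset

/-- walks of a given length -/
def Walk {A : Type*} (R : A → A → Prop) : ℕ → A → A → Prop
  | 0, x, y => x = y
  | n + 1, x, z => ∃ y, Walk R n x y ∧ R y z

lemma Walk.trans {A : Type*} {R : A → A → Prop} {m : ℕ} {x y : A} (h : Walk R m x y) (n : ℕ) :
    ∀ z, Walk R n y z → Walk R (m + n) x z := by
  induction n with
  | zero => intro z hz; cases hz; exact h
  | succ n ih => rintro z ⟨w, hw, hr⟩; exact ⟨w, ih w hw, hr⟩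

lemma Walk.extract {A : Type*} {R : A → A → Prop} {x : A} (n : ℕ) : ∀ y, Walk R n x y →
    ∃ f : ℕ → A, f 0 = x ∧ f n = y ∧ ∀ i < n, R (f i) (f (i + 1)) := by
  induction n with
  | zero => intro y hy; exact ⟨fun _ => x, rfl, hy, by simp⟩
  | succ n ih =>
    rintro z ⟨y, hy, hr⟩
    obtain ⟨f, h0, hn, hf⟩ := ih y hy
    refine ⟨fun i => if i ≤ n then f i else z, by simp [h0], by simp, fun i hi => ?_⟩
    by_cases h : i + 1 ≤ n
    · simp only [if_pos h, if_pos (by omega : i ≤ n)]; exact hf i (by omega)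
    · have : i = n := by omega
      subst this
      simp only [if_neg h, if_pos le_rfl, hn]; exact hr

lemma Walk.of_fun {A : Type*} {R : A → A → Prop} {n : ℕ} {f : ℕ → A}
    (hf : ∀ i < n, R (f i) (f (i + 1))) (i d : ℕ) (h : i + d ≤ n) : Walk R d (f i) (f (i + d)) := by
  induction d with
  | zero => rfl
  | succ d ih => exact ⟨f (i + d), ih (by omega), hf _ (by omega)⟩

lemma exists_closed_walk {A : Type*} (R : A → A → Prop) (S : Set A) (hS : S.Finite)
    (hne : S.Nonempty) (h : ∀ g ∈ S, ∃ x ∈ S, R x g) : ∃ k, 0 < k ∧ ∃ x, Walk R k x x := by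
  have := hS.to_subtype
  choose p hp hr using h
  let P : S → S := fun g => ⟨p g.1 g.2, hp g.1 g.2⟩
  obtain ⟨g0, hg0⟩ := hne
  let s : ℕ → S := fun n => P^[n] ⟨g0, hg0⟩
  have hs : ∀ n, R (s (n + 1)) (s n) := by
    intro n
    have : s (n + 1) = P (s n) := Function.iterate_succ_apply' _ _ _
    rw [this]; exact hr _ _
  have hw : ∀ m d, Walk R d (s (m + d)) (s m) := by
    intro m d
    induction d with
    | zero => rfl
    | succ d ih =>
      have h1 : Walk R 1 (s (m + d + 1) : A) (s (m + d)) := ⟨_, rfl, hs _⟩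
      have := h1.trans d _ ih
      rwa [add_comm 1 d] at this
  obtain ⟨m, n, hmn, e⟩ := Finite.exists_ne_map_eq_of_infinite s
  rcases lt_or_gt_of_ne hmn with h1 | h1
  · obtain ⟨d, rfl⟩ : ∃ d, n = m + d := ⟨n - m, by omega⟩
    exact ⟨d, by omega, s m, by have := hw m d; rwa [← e] at this⟩
  · obtain ⟨d, rfl⟩ : ∃ d, m = n + d := ⟨m - n, by omega⟩
    exact ⟨d, by omega, s n, by have := hw n d; rwa [e] at this⟩

lemma succ_mod {i k : ℕ} (h : i < k) : (i + 1) % k = if i + 1 = k then 0 else i + 1 := by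
  split_ifs with h1
  · rw [h1, Nat.mod_self]
  · exact Nat.mod_eq_of_lt (by omega)

theorem full_line_aux {K : Type*} [Field K] [CharP K 2] [IsAlgClosed K] {A : Type*}
    [AddCommGroup A] {c : A → A → K} (hc : SC c) (Q : A → A →+ K)
    (hQ : ∀ x g y, c g y ≠ 0 → qq c x g = Q x g)
    (hcw : ∃ k, 0 < k ∧ ∃ x, Walk (fun x y => qq c x y ≠ 0) k x x) :
    ∃ x y, c x y ≠ 0 ∧ c x (x + y) ≠ 0 ∧ c y (x + y) ≠ 0 := by
  classical
  by_contra hno
  push Not at hno
  set k := Nat.find hcw with hk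
  obtain ⟨hk0, x0, hx0⟩ := Nat.find_spec hcw
  rw [← hk] at hk0 hx0
  have hmin : ∀ m x, 0 < m → Walk (fun x y => qq c x y ≠ 0) m x x → k ≤ m :=
    fun m x hm hw => Nat.find_min' hcw ⟨hm, x, hw⟩
  clear_value k
  obtain ⟨f, f0, fk, hf⟩ := Walk.extract k x0 hx0
  have hW : ∀ i < k, ∀ j < k,
      Walk (fun x y => qq c x y ≠ 0) (if j ≤ i then i - j else k - j + i) (f j) (f i) := by
    intro i hi j hj
    split_ifs with h
    · have := Walk.of_fun (R := fun x y => qq c x y ≠ 0) (f := f) (n := k) hf j (i - j) (by omega)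
      rwa [show j + (i - j) = i by omega] at this
    · have h1 := Walk.of_fun (R := fun x y => qq c x y ≠ 0) (f := f) (n := k) hf j (k - j) (by omega)
      have h2 := Walk.of_fun (R := fun x y => qq c x y ≠ 0) (f := f) (n := k) hf 0 i (by omega)
      rw [show j + (k - j) = k by omega, fk, ← f0] at h1
      rw [zero_add] at h2
      exact h1.trans _ _ h2
  have F0 : ∀ i < k, qq c (f i) (f ((i + 1) % k)) ≠ 0 := by
    intro i hi
    rw [succ_mod hi]
    split_ifs with h
    · have := hf i hi; rwa [h, fk, ← f0] at this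
    · exact hf i hi
  have F1 : ∀ i < k, ∀ j < k, qq c (f i) (f j) ≠ 0 → j = (i + 1) % k := by
    intro i hi j hj h
    have := hmin _ (f j) (Nat.succ_pos _) ⟨f i, hW i hi j hj, h⟩
    rw [succ_mod hi]
    split_ifs at this ⊢ <;> omega
  have F2 : ∀ i < k, ∀ j < k, ∀ g, qq c (f i) g ≠ 0 → qq c g (f j) ≠ 0 →
      j = (i + 1) % k ∨ j = ((i + 1) % k + 1) % k := by
    intro i hi j hj g h1 h2
    have := hmin ((if j ≤ i then i - j else k - j + i) + 1 + 1) (f j) (Nat.succ_pos _)
      ⟨g, ⟨f i, hW i hi j hj, h1⟩, h2⟩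
    rw [succ_mod (Nat.mod_lt _ hk0), succ_mod hi]
    split_ifs at this ⊢ <;> omega
  have hk2 : 2 ≤ k := by
    by_contra h
    have h1 := F0 0 hk0
    rw [show k = 1 by omega] at h1
    simp [qq, hc.diag] at h1
  have hfS : ∀ j < k, ∃ y, c (f j) y ≠ 0 := fun j hj =>
    ⟨_, left_ne_zero_of_mul (F0 j hj)⟩
  have z01 : ∀ x : ZMod 2, x = 0 ∨ x = 1 := by decide
  have hval : ∀ (x y : ZMod 2) (a : A), (x + y).val • a = x.val • a + y.val • a := by
    intro x y a
    have := hc.two a
    rcases z01 x with rfl | rfl <;> rcases z01 y with rfl | rfl <;>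
      simp [ZMod.val_one, this, show (1 + 1 : ZMod 2) = 0 from rfl]
  let φ : (Fin k → ZMod 2) →+ A :=
    { toFun := fun ε => ∑ i, (ε i).val • f i
      map_zero' := by simp
      map_add' := fun ε δ => by simp [hval, sum_add_distrib] }
  have hφ : ∀ ε, φ ε = ∑ i, (ε i).val • f i := fun _ => rfl
  have hφ1 : ∀ i : Fin k, φ (Pi.single i 1) = f i := by
    intro i
    rw [hφ, sum_eq_single i]
    · simp [ZMod.val_one]
    · intro j _ hj; simp [Pi.single_eq_of_ne hj]
    · simp
  let κ : ZMod 2 →+* K := ZMod.castHom (dvd_refl 2) K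
  have hκ : ∀ x : ZMod 2, κ x = (x.val : K) := fun x => by simp [κ]
  have hQφ : ∀ i (hi : i < k) ε, Q (f i) (φ ε) =
      qq c (f i) (f ((i + 1) % k)) * κ (ε ⟨(i + 1) % k, Nat.mod_lt _ hk0⟩) := by
    intro i hi ε
    rw [hφ, map_sum, sum_eq_single ⟨(i + 1) % k, Nat.mod_lt _ hk0⟩]
    · obtain ⟨y, hy⟩ := hfS _ (Nat.mod_lt (i + 1) hk0)
      rw [map_nsmul, ← hQ _ _ y hy, hκ, nsmul_eq_mul, mul_comm]
    · intro j _ hj
      obtain ⟨y, hy⟩ := hfS j j.2
      rw [map_nsmul, ← hQ _ _ y hy]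
      have : qq c (f i) (f j) = 0 := by
        by_contra h
        exact hj (Fin.ext (F1 i hi j j.2 h))
      rw [this, smul_zero]
    · simp
  refine no_cyc k hk2 (Fin k → ZMod 2) (fun x y => c (φ x) (φ y))
    (fun i => if hi : i < k then Pi.single ⟨i, hi⟩ 1 else 0)
    (fun i => if hi : i < k then
      κ.toAddMonoidHom.comp (Pi.evalAddMonoidHom (fun _ => ZMod 2) ⟨i, hi⟩) else 0)
    (fun i => qq c (f i) (f ((i + 1) % k)))
    (hc.comap φ (fun x => by funext i; exact CharTwo.add_self_eq_zero _)) ?_ ?_ F0 ?_ ?_ ?_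
  · intro g
    simp only [dif_pos hk0, AddMonoidHom.comp_apply, Pi.evalAddMonoidHom_apply,
      RingHom.toAddMonoidHom_eq_coe, AddMonoidHom.coe_coe]
    rcases z01 (g ⟨0, hk0⟩) with h | h <;> simp [h]
  · intro i hi j hj
    simp only [dif_pos hi, dif_pos hj, AddMonoidHom.comp_apply, Pi.evalAddMonoidHom_apply,
      RingHom.toAddMonoidHom_eq_coe, AddMonoidHom.coe_coe]
    split_ifs with h
    · subst h; simp
    · rw [Pi.single_eq_of_ne (by simpa using h)]; simp
  · intro i hi g y hy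
    simp only [dif_pos hi, dif_pos (Nat.mod_lt (i + 1) hk0), AddMonoidHom.comp_apply,
      Pi.evalAddMonoidHom_apply, RingHom.toAddMonoidHom_eq_coe, AddMonoidHom.coe_coe]
    rw [← hQφ i hi g, ← hQ _ _ _ hy]
    simp only [qq, map_add, hφ1]
  · intro i hi
    refine ⟨Pi.single ⟨(i + 1) % k, Nat.mod_lt _ hk0⟩ 1, ?_⟩
    simp only [dif_pos hi, hφ1]
    exact left_ne_zero_of_mul (F0 i hi)
  · intro g hg y
    by_contra hne
    have hne' : qq c (φ g) (φ y) ≠ 0 := by simpa only [qq, map_add] using hne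
    have hgS : c (φ g) (φ y) ≠ 0 := left_ne_zero_of_mul hne'
    rw [hQ _ _ (φ g) (by rwa [hc.symm]), hφ y, map_sum] at hne'
    obtain ⟨j, _, hj⟩ := exists_ne_zero_of_sum_ne_zero hne'
    obtain ⟨y', hy'⟩ := hfS j j.2
    rw [map_nsmul, ← hQ _ _ y' hy'] at hj
    have hj' : qq c (φ g) (f j) ≠ 0 := fun h => hj (by rw [h, smul_zero])
    -- predecessor
    have hpred : ∀ i < k, ∃ p < k, (p + 1) % k = i := by
      intro i hi
      by_cases h : i = 0
      · exact ⟨k - 1, by omega, by rw [show k - 1 + 1 = k by omega, Nat.mod_self, h]⟩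
      · exact ⟨i - 1, by omega, by rw [show i - 1 + 1 = i by omega, Nat.mod_eq_of_lt hi]⟩
    obtain ⟨p, hp, hpj⟩ := hpred j j.2
    have hpj' : (⟨p, hp⟩ : Fin k) ≠ j := by
      intro h
      have h1 : p = j := congrArg Fin.val h
      rw [succ_mod hp] at hpj
      split_ifs at hpj <;> omega
    have hsupp : ∀ i : Fin k, i ≠ j → i ≠ ⟨p, hp⟩ → g i = 0 := by
      intro i h1 h2
      rcases z01 (g i) with h | h
      · exact h
      exfalso
      obtain ⟨r, hr, hri⟩ := hpred i i.2
      have h3 : qq c (f r) (φ g) ≠ 0 := by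
        rw [hQ _ _ _ hgS, hQφ r hr]
        have : (⟨(r + 1) % k, Nat.mod_lt _ hk0⟩ : Fin k) = i := Fin.ext hri
        rw [this, h, map_one, mul_one]
        exact F0 r hr
      rcases F2 r hr j j.2 _ h3 hj' with h4 | h4
      · exact h1 (Fin.ext (by rw [h4, hri]))
      · rw [hri] at h4
        apply h2
        apply Fin.ext
        have := i.2
        rw [succ_mod i.2] at h4
        rw [succ_mod hp] at hpj
        dsimp only
        split_ifs at h4 hpj <;> omega
    have hg2 : g = Pi.single j (g j) + Pi.single ⟨p, hp⟩ (g ⟨p, hp⟩) := by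
      funext i
      by_cases h1 : i = j
      · subst h1; simp [Pi.single_eq_of_ne hpj'.symm]
      by_cases h2 : i = ⟨p, hp⟩
      · subst h2; simp [Pi.single_eq_of_ne h1]
      · simp [Pi.single_eq_of_ne h1, Pi.single_eq_of_ne h2, hsupp i h1 h2]
    rcases z01 (g j) with h1 | h1 <;> rcases z01 (g ⟨p, hp⟩) with h2 | h2 <;>
      rw [h1, h2] at hg2
    · apply hgS; rw [hg2]; simp [hc.zero]
    · apply hg p hp; rw [dif_pos hp, hg2]; simp
    · apply hg j j.2; rw [dif_pos j.2, hg2]; simp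
    · have e : φ g = f p + f j := by rw [hg2, map_add, hφ1, hφ1, add_comm]
      have h3 := F0 p hp
      rw [hpj] at h3
      apply hj'
      have := hno (f p) (f j) (left_ne_zero_of_mul h3) (right_ne_zero_of_mul h3)
      rw [e, qq, hc.symm, this, zero_mul]

theorem full_line {K : Type*} [Field K] [CharP K 2] {B : Type*} [AddCommGroup B] [Finite B]
    {c : B → B → K} (hc : SC c) (hne : ∃ x y, c x y ≠ 0)
    (hin : ∀ g y, c g y ≠ 0 → ∃ x, qq c x g ≠ 0) :
    ∃ x y, c x y ≠ 0 ∧ c x (x + y) ≠ 0 ∧ c y (x + y) ≠ 0 := by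
  classical
  let F := AlgebraicClosure K
  let ι : K →+* F := algebraMap K F
  have hι : ∀ x, ι x = 0 ↔ x = 0 := fun x => map_eq_zero ι
  have two : (2 : K) = 0 := CharTwo.two_eq_zero
  let ev : B → B → K := fun β α => qq c α β
  have hev : ∀ β β', c β β' ≠ 0 → ev (β + β') = ev β + ev β' := by
    intro β β' h
    funext α
    simp only [ev, qq, Pi.add_apply]
    apply mul_left_cancel₀ h
    have J1 := hc.jac α β β'
    have J2 := hc.jac α (α + β) β'
    have J3 := hc.jac α β (α + β')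
    have e1 : α + (α + β) = β := by rw [← add_assoc, hc.two, zero_add]
    have e2 : α + β + β' = α + (β + β') := by abel
    have e3 : β + (α + β') = α + (β + β') := by abel
    have e4 : α + β' + α = β' := by rw [add_right_comm, hc.two, zero_add]
    rw [hc.symm (β + β') α, add_comm β' α, hc.symm β' α, hc.symm (α + β') β] at J1
    rw [e1, e2, hc.symm (α + (β + β')) α, add_comm β' α, hc.symm β' α,
      hc.symm (α + β') (α + β)] at J2
    rw [e3, e4, hc.symm (α + (β + β')) α, hc.symm (α + β') α, hc.symm β' β] at J3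
    linear_combination c α (α + (β + β')) * J1 - c α β * J2 - c α β' * J3
      + c α β * c α β' * c (α + β) (α + β') * two
  let G : B × (B → K) → Prop := fun x => x.2 = ev x.1
  let c' : B × (B → K) → B × (B → K) → F := fun x y => if G x ∧ G y then ι (c x.1 y.1) else 0
  have hc' : ∀ x y, c' x y ≠ 0 → G x ∧ G y ∧ c x.1 y.1 ≠ 0 := by
    intro x y h
    by_cases h1 : G x ∧ G y
    · refine ⟨h1.1, h1.2, fun h2 => h ?_⟩
      simp only [c', if_pos h1, h2, map_zero]
    · exact absurd (if_neg h1) h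
  have hmul : ∀ x y z, G x → G y → G z → c' x y * c' (x + y) z = ι (c x.1 y.1 * c (x.1 + y.1) z.1) := by
    intro x y z hx hy hz
    by_cases h : c x.1 y.1 = 0
    · simp [c', h]
    · have : G (x + y) := by
        simp only [G, Prod.snd_add, Prod.fst_add] at hx hy ⊢
        rw [hev _ _ h, hx, hy]
      simp [c', hx, hy, hz, this]
  have hS : SC c' := by
    refine ⟨fun x => Prod.ext (hc.two _) ?_, fun x y => ?_, fun x => ?_, fun x => ?_,
      fun x y z => ?_⟩
    · funext i; exact CharTwo.add_self_eq_zero _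
    · simp only [c', and_comm, hc.symm x.1]
    · simp [c', hc.diag]
    · simp [c', hc.zero]
    · by_cases h : G x ∧ G y ∧ G z
      · rw [hmul _ _ _ h.1 h.2.1 h.2.2, hmul _ _ _ h.2.1 h.2.2 h.1, hmul _ _ _ h.2.2 h.1 h.2.1,
          ← map_add, ← map_add, hc.jac, map_zero]
      · have t1 : c' x y * c' (x + y) z = 0 := by
          by_contra h1
          exact h ⟨(hc' _ _ (left_ne_zero_of_mul h1)).1, (hc' _ _ (left_ne_zero_of_mul h1)).2.1,
            (hc' _ _ (right_ne_zero_of_mul h1)).2.1⟩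
        have t2 : c' y z * c' (y + z) x = 0 := by
          by_contra h1
          exact h ⟨(hc' _ _ (right_ne_zero_of_mul h1)).2.1, (hc' _ _ (left_ne_zero_of_mul h1)).1,
            (hc' _ _ (left_ne_zero_of_mul h1)).2.1⟩
        have t3 : c' z x * c' (z + x) y = 0 := by
          by_contra h1
          exact h ⟨(hc' _ _ (left_ne_zero_of_mul h1)).2.1, (hc' _ _ (right_ne_zero_of_mul h1)).2.1,
            (hc' _ _ (left_ne_zero_of_mul h1)).1⟩
        rw [t1, t2, t3]; simp
  have hqq : ∀ x g, G x → G g → qq c' x g = ι (qq c x.1 g.1) := by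
    intro x g hx hg
    unfold qq
    rw [hS.symm x (x + g), hmul _ _ _ hx hg hx, hc.symm (x.1 + g.1)]
  let Q : B × (B → K) → (B × (B → K)) →+ F := fun x => if G x then
    ι.toAddMonoidHom.comp ((Pi.evalAddMonoidHom (fun _ => K) x.1).comp (AddMonoidHom.snd _ _))
    else 0
  obtain ⟨x, y, h1, h2, h3⟩ := full_line_aux hS Q (by
      intro x g y hy
      have hg := (hc' _ _ hy).1
      by_cases hx : G x
      · rw [hqq x g hx hg]
        simp only [G] at hg
        simp [Q, hx, hg, ev]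
      · simp [Q, hx, qq, c']) (by
      apply exists_closed_walk _ {x | ∃ y, c' x y ≠ 0}
      · apply (Set.finite_range (fun β => (β, ev β))).subset
        rintro x ⟨y, hy⟩
        exact ⟨x.1, Prod.ext rfl (hc' _ _ hy).1.symm⟩
      · obtain ⟨x, y, h⟩ := hne
        exact ⟨(x, ev x), (y, ev y), by simpa [c', G, hι] using h⟩
      · rintro g ⟨y, hy⟩
        obtain ⟨hg, _, h⟩ := hc' _ _ hy
        obtain ⟨x, hx⟩ := hin _ _ h
        have : qq c' (x, ev x) g ≠ 0 := by rw [hqq _ _ rfl hg]; simpa [hι] using hx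
        exact ⟨(x, ev x), ⟨g, left_ne_zero_of_mul this⟩, this⟩)
  exact ⟨x.1, y.1, (hc' _ _ h1).2.2, (hc' _ _ h2).2.2, (hc' _ _ h3).2.2⟩

end Pool.Agent.MP_9adac4_al
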