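import Pool.Agent.MP_9adac4_al.Env
import Pool.Agent.MP_9adac4_al.Line

/- Question 1: a proper simple graded subalgebra. -/

namespace Pool.Agent.MP_9adac4_al

open LieAlgebra

attribute [local instance 100] LieRing.ofAssociativeRing

variable {K L : Type*} [Field K] [LieRing L] [LieAlgebra K L]

lemma simple_three {M : Type*} [LieRing M] [LieAlgebra K M] (u v w : M) (a b c : K)
    (hs : Submodule.span K {u, v, w} = ⊤) (h1 : ⁅u, v⁆ = a • w) (h2 : ⁅u, w⁆ = b • v)
    (h3 : ⁅v, w⁆ = c • u) (ha : a ≠ 0) (hb : b ≠ 0) (hc : c ≠ 0) (hw : w ≠ 0) :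
    IsSimple K M := by
  have h1' : ⁅v, u⁆ = -(a • w) := by rw [← lie_skew, h1]
  have h2' : ⁅w, u⁆ = -(b • v) := by rw [← lie_skew, h2]
  have h3' : ⁅w, v⁆ = -(c • u) := by rw [← lie_skew, h3]
  constructor
  · intro I
    have hsm : ∀ (r : K) (x : M), r ≠ 0 → r • x ∈ I → x ∈ I := by
      intro r x hr hx
      have := I.toSubmodule.smul_mem r⁻¹ hx
      rwa [smul_smul, inv_mul_cancel₀ hr, one_smul] at this
    have uw : u ∈ I → w ∈ I := fun h => hsm a _ ha (h1 ▸ lie_mem_left K M I u v h)
    have wv : w ∈ I → v ∈ I := fun h => hsm b _ hb (h2 ▸ lie_mem_right K M I u w h)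
    have vu : v ∈ I → u ∈ I := fun h => hsm c _ hc (h3 ▸ lie_mem_left K M I v w h)
    by_cases hu : u ∈ I
    · right
      rw [eq_top_iff]
      intro x _
      have hx : x ∈ Submodule.span K {u, v, w} := by rw [hs]; trivial
      have : Submodule.span K {u, v, w} ≤ I.toSubmodule := by
        rw [Submodule.span_le]
        rintro y (rfl | rfl | rfl)
        exacts [hu, wv (uw hu), uw hu]
      exact this hx
    · left
      rw [eq_bot_iff]
      intro x hxI
      have hx : x ∈ Submodule.span K {u, v, w} := by rw [hs]; trivial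
      obtain ⟨p, q, r, rfl⟩ := Submodule.mem_span_triple.1 hx
      have L : ∀ y z : M, z ∈ I → ⁅y, z⁆ ∈ I := fun y z h => lie_mem_right K M I y z h
      have e1 : ⁅v, ⁅v, ⁅u, ⁅u, p • u + q • v + r • w⁆⁆⁆⁆ = (-(r * a * a * b * c)) • w := by
        simp only [lie_add, lie_smul, lie_self, h1, h2, h3, h1', smul_zero, zero_add]
        module
      have e2 : ⁅w, ⁅w, ⁅u, ⁅u, p • u + q • v + r • w⁆⁆⁆⁆ = (q * a * b * b * c) • v := by
        simp only [lie_add, lie_smul, lie_self, h1, h2, h2', h3', smul_zero, zero_add, add_zero,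
          lie_neg]
        module
      have e3 : ⁅w, ⁅w, ⁅v, ⁅v, p • u + q • v + r • w⁆⁆⁆⁆ = (-(p * a * b * c * c)) • u := by
        simp only [lie_add, lie_smul, lie_self, h3, h1', h2', h3', smul_zero, add_zero,
          lie_neg, neg_zero]
        module
      have r0 : r = 0 := by
        by_contra h
        exact hu (vu (wv (hsm _ _ (by simp [*]) (e1 ▸ L _ _ (L _ _ (L _ _ (L _ _ hxI)))))))
      have q0 : q = 0 := by
        by_contra h
        exact hu (vu (hsm _ _ (by simp [*]) (e2 ▸ L _ _ (L _ _ (L _ _ (L _ _ hxI))))))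
      have p0 : p = 0 := by
        by_contra h
        exact hu (hsm _ _ (by simp [*]) (e3 ▸ L _ _ (L _ _ (L _ _ (L _ _ hxI)))))
      simp [r0, q0, p0]
  · intro h
    have := h.trivial u v
    rw [h1] at this
    exact smul_ne_zero ha hw this

theorem q1 [CharP K 2] (hdim : 3 < Module.finrank K L) {n : ℕ} (t : Fin n → Module.End K L)
    (ht : IsThin t) : ∃ M : LieSubalgebra K L, IsGraded t M ∧ M ≠ ⊤ ∧ IsSimple K M := by
  classical
  have htE : ∀ i, t i ∈ envelope K L := fun i =>
    ht.torus.1 (Submodule.subset_span ⟨i, rfl⟩)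
  have htD : ∀ i, t i ∈ Der K L := fun i => envelope_le_Der (htE i)
  have htc : ∀ i j, t i * t j = t j * t i := fun i j =>
    ht.torus.2.1 _ (Submodule.subset_span ⟨i, rfl⟩) _ (Submodule.subset_span ⟨j, rfl⟩)
  have two : ∀ x : Fin n → ZMod 2, x + x = 0 := fun x => by
    funext i; exact CharTwo.add_self_eq_zero _
  have hex : ∀ α, ∃ e ∈ weightSpace t α, (α ≠ 0 → e ≠ 0) ∧
      ∀ w ∈ weightSpace t α, ∃ r : K, w = r • e := by
    intro α
    by_cases h : α = 0
    · refine ⟨0, Submodule.zero_mem _, fun h1 => absurd h h1, fun w hw => ⟨0, ?_⟩⟩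
      rw [h, ht.zeroWeight] at hw
      simpa using hw
    · obtain ⟨v, hv, hv2⟩ := finrank_eq_one_iff'.1 (ht.oneDim α h)
      refine ⟨v, v.2, fun _ h1 => hv (Subtype.ext h1), fun w hw => ?_⟩
      obtain ⟨r, hr⟩ := hv2 ⟨w, hw⟩
      exact ⟨r, (congrArg Subtype.val hr).symm⟩
  choose e he hne hsp using hex
  have e0 : e 0 = 0 := by have := he 0; rw [ht.zeroWeight] at this; simpa using this
  have hcx : ∀ α β, ∃ r : K, ⁅e α, e β⁆ = r • e (α + β) ∧ (α + β = 0 → r = 0) := by
    intro α β
    obtain ⟨r, hr⟩ := hsp _ _ (lie_mem_weightSpace htD (he α) (he β))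
    by_cases h : α + β = 0
    · exact ⟨0, by rw [hr, h, e0]; simp, fun _ => rfl⟩
    · exact ⟨r, hr, fun h1 => absurd h1 h⟩
  choose c hc hc0 using hcx
  have cancel : ∀ α (r s : K), α ≠ 0 → r • e α = s • e α → r = s := fun α r s h h1 =>
    smul_left_injective K (hne α h) h1
  have hsymm : ∀ α β, c α β = c β α := by
    intro α β
    by_cases h : α + β = 0
    · rw [hc0 _ _ h, hc0 _ _ (by rwa [add_comm])]
    · apply cancel _ _ _ h
      rw [← hc, add_comm, ← hc, ← lie_skew, neg_eq_iff_add_eq_zero, add_self (K := K)]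
  have hS : SC c := by
    refine ⟨two, hsymm, fun x => hc0 _ _ (two x), fun x => ?_, fun x y z => ?_⟩
    · by_cases h : x = 0
      · exact hc0 _ _ (by simp [h])
      · apply cancel x _ _ h
        have := hc 0 x
        rw [e0, zero_add] at this
        rw [← this]; simp
    · by_cases h : x + y + z = 0
      · rw [hc0 _ _ h, hc0 (y + z) x (by rw [← h]; abel), hc0 (z + x) y (by rw [← h]; abel)]
        simp
      · apply cancel _ _ _ h
        have := lie_jacobi (e x) (e y) (e z)
        simp only [hc, lie_smul, smul_smul] at this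
        rw [show x + (y + z) = x + y + z by abel, show y + (z + x) = x + y + z by abel,
          show z + (x + y) = x + y + z by abel, hsymm x (y + z), hsymm y (z + x),
          hsymm z (x + y)] at this
        rw [zero_smul, ← this]; module
  have hspan : Submodule.span K (Set.range e) = ⊤ := by
    rw [eq_top_iff, ← iSup_weightSpace ht.toral htc, iSup_le_iff]
    intro α w hw
    obtain ⟨r, rfl⟩ := hsp α w hw
    exact Submodule.smul_mem _ _ (Submodule.subset_span ⟨α, rfl⟩)
  have hin : ∀ g, g ≠ 0 → ∃ x, qq c x g ≠ 0 := by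
    intro g hg
    by_contra hno
    push Not at hno
    let D : Submodule K (Module.End K L) :=
      { carrier := {d | d ∈ Der K L ∧ (∀ i, d * t i = t i * d) ∧ d (e g) = 0}
        add_mem' := by
          rintro a b ⟨h1, h2, h3⟩ ⟨h4, h5, h6⟩
          exact ⟨Submodule.add_mem _ h1 h4, fun i => by rw [add_mul, mul_add, h2, h5],
            by simp [h3, h6]⟩
        zero_mem' := ⟨Submodule.zero_mem _, by simp, by simp⟩
        smul_mem' := by
          rintro r a ⟨h1, h2, h3⟩
          exact ⟨Submodule.smul_mem _ _ h1, fun i => by simp [h2], by simp [h3]⟩ }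
    have key := envelope_le_sup D (fun d hd => hd.1)
      (by
        rintro a ⟨h1, h2, h3⟩ b ⟨h4, h5, h6⟩
        refine ⟨Der.comm h1 h4, fun i => ?_, by simp [h3, h6]⟩
        rw [sub_mul, mul_sub, mul_assoc, mul_assoc, h2, h5, ← mul_assoc, ← mul_assoc, h2, h5,
          mul_assoc, mul_assoc])
      (by
        rintro a ⟨h1, h2, h3⟩
        refine ⟨Der.sq h1, fun i => ?_, by simp [pow_two, h3]⟩
        rw [pow_two, mul_assoc, h2, ← mul_assoc, h2, mul_assoc])
      (Set.range e) hspan
      (by
        rintro _ ⟨α, rfl⟩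
        refine ⟨Der.sq (ad_mem_Der _), fun i => ?_, ?_⟩
        · have h1 := Der.mul_ad (htD i) (e α)
          rw [mem_weightSpace.1 (he α) i, map_smul] at h1
          have h2 := add_self (K := K) ((((α i).val : ℕ) : K) • (ad K L (e α) * ad K L (e α)))
          rw [pow_two, ← mul_assoc, h1, add_mul, mul_assoc, mul_assoc, h1, mul_add,
            smul_mul_assoc, mul_smul_comm, add_assoc, h2, add_zero]
        · have := hno α
          simp only [pow_two, Module.End.mul_apply, ad_apply, hc, lie_smul, smul_smul]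
          unfold qq at this
          rw [this, zero_smul])
    obtain ⟨i, hi⟩ : ∃ i, g i ≠ 0 := by
      by_contra h; push Not at h; exact hg (funext h)
    obtain ⟨x, d, hd, hx⟩ := key _ (htE i)
    have hx0 : x = 0 := by
      have : x ∈ weightSpace t 0 := by
        rw [mem_weightSpace]
        intro j
        have h1 := Der.mul_ad (htD j) x
        have h2 : ad K L x = t i - d := by rw [hx]; abel
        have h3 : ad K L (t j x) = 0 := by
          rw [h2, mul_sub, sub_mul, htc j i, hd.2.1 j] at h1
          simpa using h1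
        rw [ht.disjoint (t j x) (by rw [h3]; exact Submodule.zero_mem _)]; simp
      rw [ht.zeroWeight] at this
      simpa using this
    have h4 := mem_weightSpace.1 (he g) i
    rw [hx, hx0] at h4
    have z01 : ∀ x : ZMod 2, x ≠ 0 → x.val = 1 := by decide
    simp only [map_zero, zero_add, hd.2.2, z01 _ hi, Nat.cast_one, one_smul] at h4
    exact hne g hg h4.symm
  have hn : ∃ g : Fin n → ZMod 2, g ≠ 0 := by
    by_contra h
    push Not at h
    have : (⊤ : Submodule K L) = ⊥ := by
      rw [← hspan, Submodule.span_eq_bot]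
      rintro _ ⟨α, rfl⟩; rw [h α, e0]
    rw [← finrank_top, this] at hdim
    simp at hdim
  obtain ⟨x, y, h1, h2, h3⟩ := full_line hS
    (by
      obtain ⟨g, hg⟩ := hn
      obtain ⟨x, hx⟩ := hin g hg
      exact ⟨x, g, left_ne_zero_of_mul hx⟩)
    (fun g y h => hin g (by rintro rfl; exact h (hS.zero y)))
  have x0 : x ≠ 0 := by rintro rfl; exact h1 (hS.zero y)
  have y0 : y ≠ 0 := by rintro rfl; exact h1 (by rw [hsymm, hS.zero])
  have xy0 : x + y ≠ 0 := fun h => h1 (hc0 _ _ h)
  have b1 : ⁅e x, e y⁆ = c x y • e (x + y) := hc _ _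
  have b2 : ⁅e x, e (x + y)⁆ = c x (x + y) • e y := by rw [hc, ← add_assoc, two, zero_add]
  have b3 : ⁅e y, e (x + y)⁆ = c y (x + y) • e x := by
    rw [hc, add_comm x y, ← add_assoc, two, zero_add]
  let N : Submodule K L := Submodule.span K {e x, e y, e (x + y)}
  have m1 : e x ∈ N := Submodule.subset_span (by simp)
  have m2 : e y ∈ N := Submodule.subset_span (by simp)
  have m3 : e (x + y) ∈ N := Submodule.subset_span (by simp)
  let M : LieSubalgebra K L :=
    { N with
      lie_mem' := by
        intro a b ha hb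
        obtain ⟨p, q, r, rfl⟩ := Submodule.mem_span_triple.1 ha
        obtain ⟨p', q', r', rfl⟩ := Submodule.mem_span_triple.1 hb
        have b1' : ⁅e y, e x⁆ = -(c x y • e (x + y)) := by rw [← lie_skew, b1]
        have b2' : ⁅e (x + y), e x⁆ = -(c x (x + y) • e y) := by rw [← lie_skew, b2]
        have b3' : ⁅e (x + y), e y⁆ = -(c y (x + y) • e x) := by rw [← lie_skew, b3]
        change _ ∈ N
        simp only [lie_add, add_lie, lie_smul, smul_lie, lie_self, b1, b2, b3, b1', b2', b3']
        repeat' first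
          | exact m1 | exact m2 | exact m3 | exact N.zero_mem
          | apply N.add_mem | apply N.smul_mem | apply N.neg_mem }
  refine ⟨M, ⟨{x, y, x + y}, by simp [x0.symm, y0.symm, xy0.symm], ?_⟩, ?_, ?_⟩
  · change N = _
    apply le_antisymm
    · rw [Submodule.span_le]
      rintro _ (rfl | rfl | rfl)
      · exact Submodule.mem_iSup_of_mem x (Submodule.mem_iSup_of_mem (by simp) (he _))
      · exact Submodule.mem_iSup_of_mem y (Submodule.mem_iSup_of_mem (by simp) (he _))
      · exact Submodule.mem_iSup_of_mem (x + y) (Submodule.mem_iSup_of_mem (by simp) (he _))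
    · rw [iSup₂_le_iff]
      intro α hα w hw
      obtain ⟨r, rfl⟩ := hsp α w hw
      apply N.smul_mem
      rcases hα with rfl | rfl | rfl
      exacts [m1, m2, m3]
  · intro h
    have h4 : N = ⊤ := congrArg LieSubalgebra.toSubmodule h
    have h5 : Module.finrank K N ≤ 3 := by
      have := finrank_span_finset_le_card (R := K) ({e x, e y, e (x + y)} : Finset L)
      have h6 : ({e x, e y, e (x + y)} : Finset L).card ≤ 3 := Finset.card_le_three
      unfold Set.finrank at this
      rw [Finset.coe_insert, Finset.coe_insert, Finset.coe_singleton] at this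
      exact this.trans h6
    rw [h4, finrank_top] at h5
    omega
  · refine simple_three (⟨e x, m1⟩ : M) ⟨e y, m2⟩ ⟨e (x + y), m3⟩ _ _ _ ?_
      (Subtype.ext b1) (Subtype.ext b2) (Subtype.ext b3) h1 h2 h3
      (fun h => hne _ xy0 (congrArg Subtype.val h))
    rw [eq_top_iff]
    rintro ⟨a, ha⟩ _
    obtain ⟨p, q, r, rfl⟩ := Submodule.mem_span_triple.1 ha
    exact Submodule.mem_span_triple.2 ⟨p, q, r, rfl⟩

end Pool.Agent.MP_9adac4_al
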