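import Pool.Agent.MP_9adac4_al.Env

/- An upper bound for the toral rank from vanishing trace forms. -/

namespace Pool.Agent.MP_9adac4_al

open Finset Module

attribute [local instance 100] LieRing.ofAssociativeRing

lemma exists_idem {F ι : Type*} [Field F] [Fintype ι] (W : Submodule F (ι → F))
    (hsq : ∀ a ∈ W, a * a ∈ W) (hne : ∃ a ∈ W, a ≠ 0) : ∃ a ∈ W, a ≠ 0 ∧ a * a = a := by
  classical
  have hex : ∃ n, ∃ a ∈ W, a ≠ 0 ∧ (univ.filter (fun j => a j ≠ 0)).card = n := by
    obtain ⟨a, ha, h0⟩ := hne; exact ⟨_, a, ha, h0, rfl⟩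
  obtain ⟨a, ha, h0, hn⟩ := Nat.find_spec hex
  obtain ⟨j, hj⟩ : ∃ j, a j ≠ 0 := by
    by_contra h; push Not at h; exact h0 (funext h)
  have h1 : a * a - a j • a = 0 := by
    by_contra h
    have := Nat.find_min' hex ⟨_, W.sub_mem (hsq a ha) (W.smul_mem (a j) ha), h, rfl⟩
    rw [← hn] at this
    refine absurd this (not_le.2 (card_lt_card ?_))
    rw [ssubset_iff_of_subset]
    · exact ⟨j, by simp [hj], by simp⟩
    · intro k hk
      simp only [mem_filter, mem_univ, true_and] at hk ⊢
      intro h2; apply hk; simp [h2]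
  refine ⟨(a j)⁻¹ • a, W.smul_mem _ ha, smul_ne_zero (inv_ne_zero hj) h0, ?_⟩
  rw [smul_mul_smul_comm, sub_eq_zero.1 h1, smul_smul]
  congr 1; field_simp

lemma code_lemma {F ι : Type*} [Field F] [CharP F 2] [Fintype ι] (hι : Fintype.card ι = 15)
    (W : Submodule F (ι → F)) (hW : 5 ≤ finrank F W) (hsq : ∀ a ∈ W, a * a ∈ W)
    (hint : ∀ σ ∈ W, ∀ τ ∈ W, τ * τ = τ → τ ≠ 0 → σ * τ = 0 → σ = 0)
    (htr : ∀ a ∈ W, ∀ b ∈ W, ∀ c ∈ W, ∑ j, a j * b j * c j = 0) : False := by
  classical
  have h01 : ∀ τ : ι → F, τ * τ = τ → ∀ j, τ j ≠ 0 → τ j = 1 := by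
    intro τ h j hj
    have := congrFun h j
    exact mul_left_cancel₀ hj (by simpa using this)
  have big : ∀ τ ∈ W, τ * τ = τ → τ ≠ 0 → 10 ≤ (univ.filter (fun j => τ j ≠ 0)).card := by
    intro τ hτ hi h0
    set P := univ.filter (fun j => τ j ≠ 0) with hP
    let ρ : W →ₗ[F] (P → F) := (LinearMap.funLeft F F (Subtype.val : P → ι)) ∘ₗ W.subtype
    have hρ : Function.Injective ρ := by
      rw [← LinearMap.ker_eq_bot, eq_bot_iff]
      intro σ hσ
      have : (σ : ι → F) = 0 := by
        apply hint _ σ.2 _ hτ hi h0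
        funext j
        by_cases hj : τ j = 0
        · simp [hj]
        · have := congrFun (LinearMap.mem_ker.1 hσ) ⟨j, by simp [hP, hj]⟩
          simp only [ρ, LinearMap.comp_apply, Submodule.subtype_apply, LinearMap.funLeft_apply,
            Pi.zero_apply] at this
          simp [this]
      exact Subtype.ext this
    let B : LinearMap.BilinForm F (P → F) := dotProductBilin F F
    have hB : LinearMap.ker B = ⊥ := by
      rw [eq_bot_iff]
      intro x hx
      funext j
      have := congrArg (fun f : (P → F) →ₗ[F] F => f (Pi.single j 1)) (LinearMap.mem_ker.1 hx)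
      simpa [B] using this
    have h1 := LinearMap.BilinForm.finrank_add_finrank_orthogonal' (B := B) (LinearMap.range ρ)
    have h2 : LinearMap.range ρ ≤ B.orthogonal (LinearMap.range ρ) := by
      rintro _ ⟨a, rfl⟩ _ ⟨b, rfl⟩
      have := htr _ b.2 _ a.2 _ hτ
      rw [← sum_subset (subset_univ P) (by intro j _ hj; simp [hP] at hj; simp [hj]),
        sum_congr rfl (g := fun j => b.1 j * a.1 j)
          (by intro j hj; simp only [hP, mem_filter] at hj; rw [h01 τ hi j hj.2, mul_one]),
        ← sum_coe_sort P] at this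
      exact this
    have h3 := Submodule.finrank_mono h2
    rw [hB, inf_bot_eq, finrank_bot, add_zero, finrank_fintype_fun_eq_card, Fintype.card_coe,
      LinearMap.finrank_range_of_inj hρ] at h1
    rw [LinearMap.finrank_range_of_inj hρ] at h3
    omega
  have sub : ∀ p q : ι, ∃ a ∈ W, a p = 0 ∧ a q = 0 ∧ a ≠ 0 ∧ a * a = a := by
    intro p q
    let π : (ι → F) →ₗ[F] F × F := (LinearMap.proj p).prod (LinearMap.proj q)
    obtain ⟨a, ha, h0, h1⟩ := exists_idem (W ⊓ LinearMap.ker π)
      (by
        rintro a ⟨h1, h2⟩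
        refine ⟨hsq a h1, ?_⟩
        have h3 : a p = 0 ∧ a q = 0 := by simpa [π] using h2
        simp [π, h3.1, h3.2])
      (by
        have h1 := (π ∘ₗ W.subtype).finrank_range_add_finrank_ker
        have h2 := (LinearMap.range (π ∘ₗ W.subtype)).finrank_le
        simp only [finrank_prod, finrank_self] at h2
        have h3 : LinearMap.ker (π ∘ₗ W.subtype) ≠ ⊥ := by
          intro h; rw [h, finrank_bot] at h1; omega
        obtain ⟨x, hx, hx0⟩ := Submodule.exists_mem_ne_zero_of_ne_bot h3
        exact ⟨x, ⟨x.2, hx⟩, fun h => hx0 (Subtype.ext h)⟩)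
    have h3 : a p = 0 ∧ a q = 0 := by simpa [π] using ha.2
    exact ⟨a, ha.1, h3.1, h3.2, h0, h1⟩
  obtain ⟨p⟩ : Nonempty ι := Fintype.card_pos_iff.1 (by omega)
  obtain ⟨τ, hτ, τp, -, τ0, τi⟩ := sub p p
  obtain ⟨q, hq⟩ : ∃ j, τ j ≠ 0 := by
    by_contra h; push Not at h; exact τ0 (funext h)
  obtain ⟨σ, hσ, σp, σq, σ0, σi⟩ := sub p q
  have two : (2 : F) = 0 := CharTwo.two_eq_zero
  have b1 := big τ hτ τi τ0
  have b2 := big σ hσ σi σ0
  have b3 := big (τ + σ) (W.add_mem hτ hσ)
    (by
      funext j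
      have e1 := congrFun τi j
      have e2 := congrFun σi j
      simp only [Pi.mul_apply, Pi.add_apply] at e1 e2 ⊢
      linear_combination e1 + e2 + τ j * σ j * two)
    (fun h => hq (by simpa [σq] using congrFun h q))
  rw [card_filter] at b1 b2 b3
  have b4 : ∑ j, ((if τ j ≠ 0 then 1 else 0) + (if σ j ≠ 0 then 1 else 0) +
      (if (τ + σ) j ≠ 0 then 1 else 0)) ≤ ∑ j ∈ univ.erase p, 2 := by
    rw [← sum_erase_add _ _ (mem_univ p)]
    simp only [τp, σp, Pi.add_apply, add_zero, ne_eq, not_true_eq_false, if_false]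
    apply sum_le_sum
    intro j _
    by_cases e1 : τ j = 0 <;> by_cases e2 : σ j = 0
    · simp [e1, e2]
    · simp [e1, e2]
    · simp [e1, e2]
    · have : τ j + σ j = 0 := by rw [h01 τ τi j e1, h01 σ σi j e2]; linear_combination two
      simp [e1, e2, this]
  rw [sum_add_distrib, sum_add_distrib, sum_const, card_erase_of_mem (mem_univ p), card_univ,
    hι] at b4
  simp only [smul_eq_mul] at b4
  omega

variable {F L : Type*} [Field F] [LieRing L] [LieAlgebra F L]

lemma eq_zero_of_mul_eq_zero [LieAlgebra.IsSimple F L] {s t : Module.End F L} (hs : s ∈ Der F L)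
    (ht : t ∈ Der F L) (ht2 : t * t = t) (ht0 : t ≠ 0) (hst : s * t = 0) (hts : t * s = 0)
    (hdec : ∀ u : L, ∃ a b, s a = 0 ∧ u = a + s b) : s = 0 := by
  let Z : LieIdeal F L :=
    { carrier := {x | ∀ y, ⁅x, s y⁆ = 0}
      add_mem' := by intro a b ha hb y; rw [add_lie, ha y, hb y, add_zero]
      zero_mem' := by intro y; simp
      smul_mem' := by intro r a ha y; rw [smul_lie, ha y, smul_zero]
      lie_mem := by
        intro u x hx y
        obtain ⟨a, b, ha, rfl⟩ := hdec u
        have h1 : ⁅s b, x⁆ = 0 := by rw [← lie_skew, hx b, neg_zero]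
        have h2 : ⁅a, s y⁆ = s ⁅a, y⁆ := by rw [hs, ha, zero_lie, zero_add]
        rw [add_lie, h1, add_zero, lie_lie, hx y, h2, hx, lie_zero, sub_zero] }
  have hZ : ∀ x, t x ∈ Z := by
    intro x y
    have e1 : s (t x) = 0 := congrArg (fun f : Module.End F L => f x) hst
    have e2 : ∀ z, t (s z) = 0 := fun z => congrArg (fun f : Module.End F L => f z) hts
    have e3 : t (t x) = t x := congrArg (fun f : Module.End F L => f x) ht2
    have h1 : ⁅t x, s y⁆ = s ⁅t x, y⁆ := by rw [hs, e1, zero_lie, zero_add]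
    have h2 := ht (t x) (s y)
    rw [e3, e2, lie_zero, add_zero] at h2
    rw [← h2, h1, e2]
  rcases LieAlgebra.IsSimple.eq_bot_or_eq_top Z with h | h
  · exfalso; apply ht0
    ext x
    have := hZ x
    rw [h] at this
    simpa using this
  · ext y
    have h1 : s y ∈ LieAlgebra.center F L := by
      rw [LieModule.mem_maxTrivSubmodule]
      intro x
      have : x ∈ Z := by rw [h]; trivial
      exact this y
    rw [LieAlgebra.center_eq_bot] at h1
    simpa using h1

lemma semisimple_of_mem_span [CharP F 2] {V : Type*} [AddCommGroup V] [Module F V]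
    {y : Module.End F V} (hy : y ∈ Submodule.span F {z | ∃ i : ℕ, 1 ≤ i ∧ z = y ^ 2 ^ i}) :
    y.IsSemisimple := by
  have key : ∀ w ∈ Submodule.span F {z | ∃ i : ℕ, 1 ≤ i ∧ z = y ^ 2 ^ i},
      ∃ q : Polynomial F, Polynomial.aeval y q = w ∧ Polynomial.derivative q = 0 := by
    intro w hw
    induction hw using Submodule.span_induction with
    | mem x hx =>
      obtain ⟨i, hi, rfl⟩ := hx
      refine ⟨Polynomial.X ^ 2 ^ i, by simp, ?_⟩
      obtain ⟨k, rfl⟩ : ∃ k, i = k + 1 := ⟨i - 1, by omega⟩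
      have : ((2 ^ (k + 1) : ℕ) : F) = 0 := by
        rw [pow_succ]; push_cast; rw [CharTwo.two_eq_zero, mul_zero]
      rw [Polynomial.derivative_X_pow, this]; simp
    | zero => exact ⟨0, by simp, by simp⟩
    | add a b _ _ ha hb =>
      obtain ⟨p, h1, h2⟩ := ha
      obtain ⟨q, h3, h4⟩ := hb
      exact ⟨p + q, by simp [h1, h3], by simp [h2, h4]⟩
    | smul r a _ ha =>
      obtain ⟨p, h1, h2⟩ := ha
      exact ⟨r • p, by simp [h1], by simp [h2]⟩
  obtain ⟨q, h1, h2⟩ := key y hy
  apply Module.End.isSemisimple_of_squarefree_aeval_eq_zero (p := Polynomial.X - q)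
  · apply Polynomial.Separable.squarefree
    rw [Polynomial.separable_def]
    simp [h2, isCoprime_one_right]
  · simp [h1]

theorem rank_le [CharP F 2] [IsAlgClosed F] [FiniteDimensional F L] [LieAlgebra.IsSimple F L]
    (hdim : finrank F L = 15)
    (htr : ∀ a ∈ envelope F L, ∀ b ∈ envelope F L, ∀ c ∈ envelope F L,
      LinearMap.trace F L (a * b * c) = 0)
    (y : Fin 5 → Module.End F L) (hy : ∀ i, y i ∈ envelope F L) (hli : LinearIndependent F y)
    (hc : ∀ i j, y i * y j = y j * y i)
    (hss : ∀ i, y i ∈ Submodule.span F {z | ∃ k : ℕ, 1 ≤ k ∧ z = y i ^ 2 ^ k}) : False := by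
  classical
  have h1 := Module.End.iSup_iInf_maxGenEigenspace_eq_top_of_iSup_maxGenEigenspace_eq_top_of_commute
    y (fun i j _ => hc i j) (fun i => Module.End.iSup_maxGenEigenspace_eq_top _)
  let E : Set L := {v | ∀ i, ∃ μ : F, y i v = μ • v}
  have hE : Submodule.span F E = ⊤ := by
    rw [eq_top_iff, ← h1, iSup_le_iff]
    intro χ v hv
    apply Submodule.subset_span
    intro i
    have := (Submodule.mem_iInf _).1 hv i
    rw [(semisimple_of_mem_span (hss i)).isFinitelySemisimple.maxGenEigenspace_eq_eigenspace,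
      Module.End.mem_eigenspace_iff] at this
    exact ⟨_, this⟩
  obtain ⟨s, hsE, hs, hsl⟩ := exists_linearIndependent F E
  let v : Basis s F L := Basis.mk hsl (by rw [Subtype.range_coe, hs, hE])
  have : Fintype s := FiniteDimensional.fintypeBasisIndex v
  have hcard : Fintype.card s = 15 := by rw [← finrank_eq_card_basis v, hdim]
  let dg : (s → F) →ₗ[F] Module.End F L := (v.constr F).toLinearMap ∘ₗ
    (LinearMap.pi fun j => (LinearMap.proj j).smulRight (v j))
  have hdg : ∀ μ j, dg μ (v j) = μ j • v j := by intro μ j; simp [dg]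
  have hmul : ∀ μ ν, dg (μ * ν) = dg μ * dg ν := by
    intro μ ν; apply v.ext; intro j
    simp [hdg, smul_smul, mul_comm]
  have hinj : ∀ μ, dg μ = 0 → μ = 0 := by
    intro μ h; funext j
    have := hdg μ j
    rw [h] at this
    exact (smul_eq_zero.1 this.symm).resolve_right (v.ne_zero j)
  have hex : ∀ i, ∃ μ, dg μ = y i := by
    intro i
    have : ∀ j : s, ∃ μ : F, y i (v j) = μ • v j := fun j => by
      have : v j = j := Basis.mk_apply _ _ _
      rw [this]; exact hsE j.2 i
    choose μ hμ using this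
    exact ⟨μ, v.ext (fun j => by rw [hdg, hμ])⟩
  choose μ hμ using hex
  refine code_lemma hcard ((envelope F L).comap dg) ?_ ?_ ?_ ?_
  · have h2 : LinearIndependent F μ := by
      apply LinearIndependent.of_comp dg
      have : dg ∘ μ = y := funext hμ
      rwa [this]
    let μ' : Fin 5 → (envelope F L).comap dg := fun i => ⟨μ i, by
      rw [Submodule.mem_comap, hμ]; exact hy i⟩
    have h3 : LinearIndependent F μ' := LinearIndependent.of_comp (Submodule.subtype _) h2
    simpa using h3.fintype_card_le_finrank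
  · intro a ha
    rw [Submodule.mem_comap, hmul, ← pow_two]
    exact sq_mem_envelope ha
  · intro σ hσ τ hτ h2 h0 h3
    apply hinj
    apply eq_zero_of_mul_eq_zero (t := dg τ) (envelope_le_Der hσ) (envelope_le_Der hτ)
    · rw [← hmul, h2]
    · exact fun h => h0 (hinj _ h)
    · rw [← hmul, h3, map_zero]
    · rw [← hmul, mul_comm, h3, map_zero]
    · intro u
      refine ⟨dg (fun j => if σ j = 0 then 1 else 0) u, dg (fun j => (σ j)⁻¹) u, ?_, ?_⟩
      · rw [← Module.End.mul_apply, ← hmul]
        have : (σ * fun j => if σ j = 0 then 1 else 0) = 0 := by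
          funext j; by_cases h : σ j = 0 <;> simp [h]
        rw [this]; simp
      · rw [← Module.End.mul_apply, ← hmul, ← LinearMap.add_apply, ← map_add]
        have : ((fun j => if σ j = 0 then 1 else 0) + σ * fun j => (σ j)⁻¹) = 1 := by
          funext j; by_cases h : σ j = 0 <;> simp [h]
        rw [this]
        have : dg 1 = 1 := v.ext (fun j => by simp [hdg])
        rw [this]; rfl
  · intro a ha b hb c hc
    have := htr _ ha _ hb _ hc
    rw [← hmul, ← hmul, LinearMap.trace_eq_matrix_trace F v, Matrix.trace] at this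
    rw [← this]
    apply sum_congr rfl
    intro j _
    simp [LinearMap.toMatrix_apply, hdg]

end Pool.Agent.MP_9adac4_al
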