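import Pool.Agent.MP_9adac4_al.Data3

/- Every closed 7-element set of weights has a proper nonzero ideal. -/

namespace Pool.Agent.MP_9adac4_al

open Finset

lemma seven (p : Fin 15 → Bool) (h7 : (univ.filter (fun i => p i = true)).card = 7)
    (hc : ∀ i j, p i = true → p j = true → cc i j = true → p (ss i j) = true) :
    ∃ J : Fin 15 → Bool, (∀ i, J i = true → p i = true) ∧ (∃ i, J i = true) ∧
      (∃ i, p i = true ∧ J i = false) ∧
      ∀ i j, p i = true → J j = true → cc i j = true → J (ss i j) = true := by
  have hb : ∀ i : Fin 15, (Nat.ofBits p).testBit i.val = p i := fun i =>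
    Nat.testBit_ofBits_lt _ _ i.2
  have hlt := Nat.ofBits_lt_two_pow p
  have h := chk_all
  simp only [List.all_eq_true, List.mem_range] at h
  have h1 := h (Nat.ofBits p / 256) (by omega) (Nat.ofBits p % 256) (by omega)
  rw [Nat.div_add_mod] at h1
  have h2 : (List.range 15).countP (fun i => (Nat.ofBits p).testBit i) = 7 := by
    have e : (univ.filter (fun i => p i = true)).card =
        ((range 15).filter (fun i => (Nat.ofBits p).testBit i = true)).card := by
      rw [card_filter, card_filter, ← Fin.sum_univ_eq_sum_range
        (fun i => if (Nat.ofBits p).testBit i = true then 1 else 0) 15]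
      simp only [hb]
    rw [← h7, e, List.countP_eq_length_filter, Finset.card_def, Finset.filter_val,
      Finset.range_val, Multiset.range, Multiset.filter_coe, Multiset.coe_card]
    simp
  have h3 : closedB (Nat.ofBits p) (Nat.ofBits p) = true := by
    simp only [closedB, List.all_eq_true, hb, Bool.or_eq_true, Bool.not_eq_true']
    intro i _
    by_cases hi : p i = true
    · right; intro j _
      by_cases hj : p j = true
      · by_cases hij : cc i j = true
        · right; exact hc i j hi hj hij
        · left; right; simpa using hij
      · left; left; simpa using hj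
    · left; simpa using hi
  rw [chk, h2, h3] at h1
  simp only [bne_self_eq_false, Bool.not_true, Bool.false_or, List.any_eq_true,
    Bool.and_eq_true, List.all_eq_true, hb, closedB, Bool.or_eq_true, Bool.not_eq_true'] at h1
  obtain ⟨J, _, ⟨⟨a1, i1, _, a2⟩, i2, _, a3⟩, a4⟩ := h1
  refine ⟨fun i => J.testBit i.val, fun i hi => ?_, ⟨i1, a2⟩, ⟨i2, a3⟩, fun i j hi hj hij => ?_⟩
  · rcases a1 i (List.mem_finRange i) with h4 | h4
    · simp [h4] at hi
    · exact h4
  · rcases a4 i (List.mem_finRange i) with h4 | h4
    · simp [h4] at hi
    · rcases h4 j (List.mem_finRange j) with (h5 | h5) | h5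
      · simp [h5] at hj
      · simp [h5] at hij
      · exact h5

end Pool.Agent.MP_9adac4_al
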