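import Pool.Agent.MP_9adac4_al.Ex
import Pool.Agent.MP_9adac4_al.Rank
import Pool.Agent.MP_9adac4_al.Seven

/- The example is thin and has no simple graded subalgebra of dimension 7. -/

namespace Pool.Agent.MP_9adac4_al

open Finset Module LieAlgebra

attribute [local instance 100] LieRing.ofAssociativeRing

lemma fun_semisimple {K ι : Type*} [Field K] [CharP K 2] [Fintype ι] (μ : ι → K) :
    μ ∈ Submodule.span K {z | ∃ i : ℕ, 1 ≤ i ∧ z = μ ^ 2 ^ i} := by
  classical
  set W := Submodule.span K {z | ∃ i : ℕ, 1 ≤ i ∧ z = μ ^ 2 ^ i} with hW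
  have hadd : ∀ a b : ι → K, (a + b) ^ 2 = a ^ 2 + b ^ 2 := by
    intro a b; funext j; simp [CharTwo.add_sq]
  have hsq : ∀ w ∈ W, w ^ 2 ∈ W := by
    intro w hw
    induction hw using Submodule.span_induction with
    | mem x hx =>
      obtain ⟨i, hi, rfl⟩ := hx
      exact Submodule.subset_span ⟨i + 1, by omega, by rw [← pow_mul, pow_succ]⟩
    | zero => simp
    | add a b _ _ ha hb => rw [hadd]; exact W.add_mem ha hb
    | smul r a _ ha => rw [_root_.smul_pow]; exact W.smul_mem _ ha
  have key : ∀ s : Finset ι, ∃ w ∈ W, ∀ j ∈ s, μ j + w j = 0 := by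
    intro s
    induction s using Finset.induction_on with
    | empty => exact ⟨0, W.zero_mem, by simp⟩
    | insert j s _ ih =>
      obtain ⟨w, hw, h⟩ := ih
      have h2 : (μ + w) ^ 2 ∈ W := by
        rw [hadd]
        exact W.add_mem (Submodule.subset_span ⟨1, le_rfl, by simp⟩) (hsq w hw)
      refine ⟨w - (μ j + w j)⁻¹ • (μ + w) ^ 2, W.sub_mem hw (W.smul_mem _ h2), fun k hk => ?_⟩
      simp only [Pi.sub_apply, Pi.smul_apply, Pi.pow_apply, Pi.add_apply, smul_eq_mul]
      rcases mem_insert.1 hk with rfl | hk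
      · by_cases h3 : μ k + w k = 0
        · rw [h3]; simpa using h3
        · field_simp; ring
      · rw [h k hk]; simpa using h k hk
  obtain ⟨w, hw, h⟩ := key univ
  have : μ = -w := by funext j; exact eq_neg_of_add_eq_zero_left (h j (mem_univ j))
  rw [this]; exact W.neg_mem hw

variable (K : Type*) [Field K] [CharP K 2]

omit [CharP K 2] in
lemma finrank_LL : finrank K (LL K) = 15 := by simp [finrank_eq_card_basis (bb K)]

lemma torus_tt : IsTorus K (LL K) (Submodule.span K (Set.range (tt K))) := by
  refine ⟨Submodule.span_le.2 (by rintro _ ⟨m, rfl⟩; exact tt_mem K m),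
    fun y hy z hz => span_tt_comm K hy hz, fun y hy => ?_⟩
  obtain ⟨μ, rfl⟩ := span_tt_dg K hy
  have := Submodule.mem_map_of_mem (f := (dg K).toLinearMap) (fun_semisimple μ)
  rw [Submodule.map_span] at this
  refine Submodule.span_mono ?_ this
  rintro _ ⟨_, ⟨i, hi, rfl⟩, rfl⟩
  exact ⟨i, hi, by simp⟩

lemma tt_indep : LinearIndependent K (tt K) := by
  rw [Fintype.linearIndependent_iff]
  intro g hg m
  have key : ∀ j : Fin 15, ∑ m, g m * kk K (wt j m) = 0 := by
    intro j
    have := congrArg (fun f : Module.End K (LL K) => f (bb K j)) hg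
    simp only [LinearMap.sum_apply, LinearMap.smul_apply, tt_bb, smul_smul, ← sum_smul,
      LinearMap.zero_apply] at this
    exact (smul_eq_zero.1 this).resolve_right ((bb K).ne_zero j)
  have w0 : wt 0 = ![1, 0, 0, 0] := by decide +kernel
  have w1 : wt 1 = ![0, 1, 0, 0] := by decide +kernel
  have w3 : wt 3 = ![0, 0, 1, 0] := by decide +kernel
  have w7 : wt 7 = ![0, 0, 0, 1] := by decide +kernel
  fin_cases m
  · simpa [Fin.sum_univ_four, w0] using key 0
  · simpa [Fin.sum_univ_four, w1] using key 1
  · simpa [Fin.sum_univ_four, w3] using key 3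
  · simpa [Fin.sum_univ_four, w7] using key 7

lemma mem_ws {α : Fin 4 → ZMod 2} {x : LL K} :
    x ∈ weightSpace (tt K) α ↔ ∀ k, wt k ≠ α → x k = 0 := by
  rw [mem_weightSpace]
  have hinj : Function.Injective (kk K) := (kk K).injective
  constructor
  · intro h k hk
    obtain ⟨m, hm⟩ := Function.ne_iff.1 hk
    have := congrFun (h m) k
    change kk K (wt k m) * x k = ((α m).val : K) * x k at this
    rw [kk_val] at this
    by_contra h0
    exact hm (hinj (mul_right_cancel₀ h0 this))
  · intro h m
    funext k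
    change kk K (wt k m) * x k = ((α m).val : K) * x k
    by_cases hk : wt k = α
    · rw [kk_val, hk]
    · rw [h k hk]; simp

lemma ws_zero : weightSpace (tt K) 0 = ⊥ := by
  rw [eq_bot_iff]
  intro x hx
  funext k
  obtain ⟨m, hm⟩ := wt_ne k
  exact (mem_ws K).1 hx k (fun h => hm (congrFun h m))

lemma ws_wt (i : Fin 15) : weightSpace (tt K) (wt i) = Submodule.span K {bb K i} := by
  have e : bb K i = Pi.single i (1 : K) := Pi.basisFun_apply K (Fin 15) i
  ext x
  rw [mem_ws, Submodule.mem_span_singleton]
  constructor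
  · intro h
    refine ⟨x i, funext fun k => ?_⟩
    change x i * bb K i k = _
    rw [e]
    by_cases hk : k = i
    · subst hk; simp
    · rw [Pi.single_eq_of_ne hk, h k (fun h2 => hk (wt_inj _ _ (congrFun h2)))]; simp
  · rintro ⟨r, rfl⟩ k hk
    change r * bb K i k = _
    rw [e, Pi.single_eq_of_ne (by rintro rfl; exact hk rfl)]; simp

lemma exists_wt (α : Fin 4 → ZMod 2) (h : α ≠ 0) : ∃ i, wt i = α := by
  rcases wt_surj (α 0) (α 1) (α 2) (α 3) with h1 | ⟨i, h1⟩
  · exfalso; apply h; funext m; fin_cases m <;> simp [h1]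
  · exact ⟨i, by funext m; fin_cases m <;> simp [h1]⟩

/-- extension of scalars on endomorphisms -/
noncomputable def bc (F : Type*) [Field F] [Algebra K F] :
    Module.End K (LL K) →+* Module.End F (LL F) :=
  ((Matrix.toLinAlgEquiv (bb F)).toRingEquiv.toRingHom.comp (algebraMap K F).mapMatrix).comp
    (LinearMap.toMatrixAlgEquiv (bb K)).toRingEquiv.toRingHom

omit [CharP K 2] in
lemma toMatrix_bc (F : Type*) [Field F] [Algebra K F] (y : Module.End K (LL K)) :
    LinearMap.toMatrix (bb F) (bb F) (bc K F y) =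
      (LinearMap.toMatrix (bb K) (bb K) y).map (algebraMap K F) :=
  LinearMap.toMatrixAlgEquiv_toLinAlgEquiv (bb F) _

omit [CharP K 2] in
lemma bc_smul (F : Type*) [Field F] [Algebra K F] (r : K) (y : Module.End K (LL K)) :
    bc K F (r • y) = algebraMap K F r • bc K F y := by
  apply (LinearMap.toMatrix (bb F) (bb F)).injective
  rw [toMatrix_bc, map_smul, map_smul, toMatrix_bc]
  ext i j; simp

lemma bc_gen (F : Type*) [Field F] [CharP F 2] [Algebra K F] (g : Fin 15 ⊕ Fin 4) :
    bc K F (gen K g) = gen F g := by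
  apply (LinearMap.toMatrix (bb F) (bb F)).injective
  rw [toMatrix_bc]
  ext i j
  have z01 : ∀ x : ZMod 2, x = 0 ∨ x = 1 := by decide
  simp only [Matrix.map_apply, LinearMap.toMatrix_apply, gen_bb, map_smul, Basis.repr_self,
    Finsupp.smul_apply, Finsupp.single_apply, smul_eq_mul]
  rcases z01 (cf g j) with h | h <;> split_ifs <;> simp [h]

lemma torus_le (T : Submodule K (Module.End K (LL K))) (hT : IsTorus K (LL K) T) :
    finrank K T ≤ 4 := by
  by_contra h
  obtain ⟨f, hf⟩ := exists_linearIndependent_of_le_finrank (R := K) (M := T) (n := 5) (by omega)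
  let F := AlgebraicClosure K
  have hmem : ∀ y ∈ Submodule.span K (Set.range (gen K)), bc K F y ∈ envelope F (LL F) := by
    intro y hy
    induction hy using Submodule.span_induction with
    | mem x hx => obtain ⟨g, rfl⟩ := hx; rw [bc_gen]; exact gen_mem F g
    | zero => simp
    | add a b _ _ ha hb => rw [map_add]; exact Submodule.add_mem _ ha hb
    | smul r a _ ha => rw [bc_smul]; exact Submodule.smul_mem _ _ ha
  refine rank_le (finrank_LL F)
    (fun a ha b hb c hc => trace_three F a b c (envelope_le_gen F ha) (envelope_le_gen F hb)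
      (envelope_le_gen F hc))
    (fun i => bc K F (f i)) (fun i => hmem _ (envelope_le_gen K (hT.1 (f i).2))) ?_ ?_ ?_
  · let eK : Module.End K (LL K) ≃ₗ[K] (Fin 15 × Fin 15 → K) :=
      (LinearMap.toMatrix (bb K) (bb K)).trans (LinearEquiv.curry K K (Fin 15) (Fin 15)).symm
    let eF : Module.End F (LL F) ≃ₗ[F] (Fin 15 × Fin 15 → F) :=
      (LinearMap.toMatrix (bb F) (bb F)).trans (LinearEquiv.curry F F (Fin 15) (Fin 15)).symm
    have h1 : LinearIndependent K (fun i => eK (f i)) :=
      (hf.map' T.subtype (Submodule.ker_subtype T)).map' eK.toLinearMap eK.ker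
    have h2 := (linearIndependent_algebraMap_comp_iff (S := F)).2 h1
    apply LinearIndependent.of_comp eF.toLinearMap
    have e : (eF.toLinearMap ∘ fun i => bc K F (f i)) =
        fun i => ⇑(algebraMap K F) ∘ eK ↑(f i) := by
      funext i p
      exact congrFun (congrFun (toMatrix_bc K F (f i)) p.1) p.2
    rw [e]; exact h2
  · intro i j
    rw [← map_mul, ← map_mul, hT.2.1 _ (f i).2 _ (f j).2]
  · intro i
    have key : ∀ w ∈ Submodule.span K {z | ∃ k : ℕ, 1 ≤ k ∧ z = (f i).1 ^ 2 ^ k},
        bc K F w ∈ Submodule.span F {z | ∃ k : ℕ, 1 ≤ k ∧ z = bc K F (f i) ^ 2 ^ k} := by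
      intro w hw
      induction hw using Submodule.span_induction with
      | mem x hx =>
        obtain ⟨k, hk, rfl⟩ := hx
        exact Submodule.subset_span ⟨k, hk, map_pow _ _ _⟩
      | zero => simp
      | add a b _ _ ha hb => rw [map_add]; exact Submodule.add_mem _ ha hb
      | smul r a _ ha => rw [bc_smul]; exact Submodule.smul_mem _ _ ha
    exact key _ (hT.2.2 _ (f i).2)

lemma thin_tt : IsThin (tt K) where
  dim := finrank_LL K
  toralRank := ⟨⟨_, torus_tt K, by simpa using finrank_span_eq_card (tt_indep K)⟩, by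
    rintro _ ⟨T, hT, rfl⟩; exact torus_le K T hT⟩
  torus := torus_tt K
  indep := tt_indep K
  toral := tt_sq K
  disjoint := by
    intro x hx
    have : x ∈ weightSpace (tt K) 0 := by
      rw [mem_weightSpace]
      intro m
      have h1 := Der.mul_ad (tt_Der K m) x
      rw [span_tt_comm K (Submodule.subset_span ⟨m, rfl⟩) hx] at h1
      have h2 : ad K (LL K) (tt K m x) = 0 := by simpa using h1
      have h3 : tt K m x ∈ LieAlgebra.center K (LL K) := by
        rw [LieModule.mem_maxTrivSubmodule]
        intro y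
        rw [← lie_skew, neg_eq_zero]
        exact congrArg (fun f : Module.End K (LL K) => f y) h2
      rw [LieAlgebra.center_eq_bot] at h3
      simpa using h3
    rw [ws_zero] at this
    simpa using this
  zeroWeight := ws_zero K
  oneDim := by
    intro α hα
    obtain ⟨i, rfl⟩ := exists_wt α hα
    rw [ws_wt]
    exact finrank_span_singleton ((bb K).ne_zero i)

lemma lie_mem_span (S J : Set (Fin 15))
    (h : ∀ i ∈ S, ∀ j ∈ J, cc i j = true → ss i j ∈ J) (x y : LL K)
    (hx : x ∈ Submodule.span K (bb K '' S)) (hy : y ∈ Submodule.span K (bb K '' J)) :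
    ⁅x, y⁆ ∈ Submodule.span K (bb K '' J) := by
  induction hx using Submodule.span_induction with
  | mem x hx =>
    induction hy using Submodule.span_induction with
    | mem y hy =>
      obtain ⟨i, hi, rfl⟩ := hx
      obtain ⟨j, hj, rfl⟩ := hy
      rw [lie_bb]
      by_cases hc : cc i j = true
      · exact Submodule.smul_mem _ _ (Submodule.subset_span ⟨_, h i hi j hj hc, rfl⟩)
      · simp [cz, hc]
    | zero => simp
    | add a b _ _ ha hb => rw [lie_add]; exact Submodule.add_mem _ ha hb
    | smul r a _ ha => rw [lie_smul]; exact Submodule.smul_mem _ _ ha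
  | zero => simp
  | add a b _ _ ha hb => rw [add_lie]; exact Submodule.add_mem _ ha hb
  | smul r a _ ha => rw [smul_lie]; exact Submodule.smul_mem _ _ ha

theorem no_seven (M : LieSubalgebra K (LL K)) (hM : IsGraded (tt K) M)
    (h7 : finrank K M = 7) : ¬ IsSimple K M := by
  classical
  intro hs
  obtain ⟨S, hS0, hS⟩ := hM
  let p : Fin 15 → Bool := fun i => decide (wt i ∈ S)
  have e : M.toSubmodule = Submodule.span K (bb K '' {i | p i = true}) := by
    rw [hS]
    apply le_antisymm
    · rw [iSup₂_le_iff]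
      intro α hα
      obtain ⟨i, rfl⟩ := exists_wt α (by rintro rfl; exact hS0 hα)
      rw [ws_wt]
      exact Submodule.span_mono (by
        rintro _ rfl; exact ⟨i, by simpa [p] using hα, rfl⟩)
    · rw [Submodule.span_le]
      rintro _ ⟨i, hi, rfl⟩
      refine Submodule.mem_iSup_of_mem (wt i) (Submodule.mem_iSup_of_mem (by simpa [p] using hi) ?_)
      rw [ws_wt]; exact Submodule.mem_span_singleton_self _
  have hmem : ∀ i, bb K i ∈ M ↔ p i = true := by
    intro i
    rw [← LieSubalgebra.mem_toSubmodule, e, Basis.self_mem_span_image]; rfl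
  have hcard : (univ.filter (fun i => p i = true)).card = 7 := by
    have h1 : LinearIndependent K (fun i : {i | p i = true} => bb K i) :=
      (bb K).linearIndependent.comp _ Subtype.val_injective
    have h2 := finrank_span_eq_card h1
    rw [← Set.image_eq_range, ← e] at h2
    rw [← h7, ← Fintype.card_subtype]
    exact h2.symm
  obtain ⟨J, a1, ⟨i1, a2⟩, ⟨i2, a3, a3'⟩, a4⟩ := seven p hcard (by
    intro i j hi hj hc
    have := M.lie_mem ((hmem i).2 hi) ((hmem j).2 hj)
    rw [lie_bb] at this
    simp only [cz, hc, if_true, map_one, one_smul] at this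
    exact (hmem _).1 this)
  let I : LieIdeal K M :=
    { (Submodule.span K (bb K '' {j | J j = true})).comap M.toSubmodule.subtype with
      lie_mem := by
        intro x y hy
        exact lie_mem_span K {i | p i = true} {j | J j = true} (fun i hi j hj => a4 i j hi hj)
          x y (by rw [← e]; exact x.2) hy }
  have hI : ∀ i (h : bb K i ∈ M), (⟨bb K i, h⟩ : M) ∈ I ↔ J i = true := fun i h =>
    Basis.self_mem_span_image (bb K)
  rcases hs.eq_bot_or_eq_top I with h | h
  · have := (hI i1 ((hmem _).2 (a1 _ a2))).2 a2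
    rw [h] at this
    exact (bb K).ne_zero i1 (congrArg Subtype.val ((LieSubmodule.mem_bot _).1 this))
  · have := (hI i2 ((hmem _).2 a3)).1 (by rw [h]; trivial)
    rw [a3'] at this
    exact absurd this (by simp)

end Pool.Agent.MP_9adac4_al
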