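import Mathlib

/- Structure constants of Lie algebras graded by an elementary abelian 2-group with components of
dimension at most one and trivial zero component; the toral switching argument. -/

namespace Pool.Agent.MP_9adac4_al

universe u

/-- structure constants -/
structure SC {K : Type*} {A : Type*} [Field K] [AddCommGroup A] (c : A → A → K) : Prop where
  two : ∀ x : A, x + x = 0
  symm : ∀ x y, c x y = c y x
  diag : ∀ x, c x x = 0
  zero : ∀ x, c 0 x = 0
  jac : ∀ x y z, c x y * c (x + y) z + c y z * c (y + z) x + c z x * c (z + x) y = 0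

/-- eigenvalue of the square of `ad e_x` on `e_y` -/
def qq {K : Type*} {A : Type*} [Field K] [AddCommGroup A] (c : A → A → K) (x y : A) : K :=
  c x y * c x (x + y)

lemma SC.comap {K A B : Type*} [Field K] [AddCommGroup A] [AddCommGroup B] {c : A → A → K}
    (hc : SC c) (φ : B →+ A) (h2 : ∀ x : B, x + x = 0) : SC (fun x y => c (φ x) (φ y)) where
  two := h2
  symm x y := hc.symm _ _
  diag x := hc.diag _
  zero x := by simp [hc.zero]
  jac x y z := by simpa using hc.jac (φ x) (φ y) (φ z)

section switch

variable {K : Type*} {A : Type*} [Field K] [CharP K 2] [AddCommGroup A] {c : A → A → K}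

/-- switching coefficient -/
def ell (c : A → A → K) (a : A) (h : A →+ K) (z : K) (g : A) : K := c a g / (1 + z * h g)

/-- switched structure constants -/
def sw (c : A → A → K) (a : A) (h : A →+ K) (z : K) (g g' : A) : K :=
  c g g' + ell c a h z g * ell c a h z g' * c (g + a) (g' + a)

lemma closure_rel (hc : SC c) (a : A) (h : A →+ K) (z l : K) (hz : z * z + z = l) (hl : l ≠ 0)
    (h01 : ∀ g, h g * h g = h g) (hq : ∀ g y, c g y ≠ 0 → qq c a g = l * h g) (g g' : A) :
    c g (g' + a) * ell c a h z g' + ell c a h z g * c (g + a) g' =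
      ell c a h z (g + g') * sw c a h z g g' := by
  have two : (2 : K) = 0 := CharTwo.two_eq_zero
  have e1 : g + a + (g' + a) = g + g' := by
    have := hc.two a
    calc g + a + (g' + a) = g + g' + (a + a) := by abel
      _ = _ := by rw [this, add_zero]
  have e2 : ∀ x, a + (x + a) = x := fun x => by
    have := hc.two a
    calc a + (x + a) = x + (a + a) := by abel
      _ = _ := by rw [this, add_zero]
  have J1 := hc.jac a g g'
  have J2 := hc.jac a (g + a) (g' + a)
  rw [e1, e2, add_comm (g' + a) a, e2, hc.symm (g + g') a, hc.symm (g' + a) a,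
    hc.symm g' (g + a)] at J2
  rw [add_comm a g, hc.symm (g + g') a, hc.symm g' a, hc.symm (g' + a) g] at J1
  have key : ∀ x y, c x y * (c a x * c a (x + a) - l * h x) = 0 := by
    intro x y
    by_cases hxy : c x y = 0
    · rw [hxy, zero_mul]
    · have := hq x y hxy
      unfold qq at this
      rw [add_comm a x] at this
      rw [this, sub_self, mul_zero]
  have k1 := key g (g' + a)
  have k2 := key g' (g + a)
  rw [hc.symm g' (g + a)] at k2
  have hz1 : 1 + z ≠ 0 := by
    intro h0
    apply hl
    rw [← hz]
    linear_combination z * h0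
  have b1 : ∀ x, h x = 0 ∨ h x = 1 := by
    intro x
    have := h01 x
    have h3 : h x * (h x - 1) = 0 := by linear_combination this
    rcases mul_eq_zero.1 h3 with h4 | h4
    · exact Or.inl h4
    · exact Or.inr (sub_eq_zero.1 h4)
  unfold sw ell
  rw [map_add h g g']
  set μ := c a g
  set μ' := c a g'
  set μ'' := c a (g + g')
  set ν := c a (g + a)
  set ν' := c a (g' + a)
  set P := c g g'
  set Q := c (g + a) g'
  set R := c g (g' + a)
  set U := c (g + a) (g' + a)
  rcases b1 g with hg | hg <;> rcases b1 g' with hg' | hg' <;> rw [hg] at k1 <;> rw [hg'] at k2 <;>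
    rw [hg, hg']
  · simp only [mul_zero, add_zero, div_one, sub_zero] at k1 k2 ⊢
    linear_combination J1 - μ * μ' * J2 + μ' * k1 + μ * k2 - (P * μ'') * two
  · simp only [mul_zero, add_zero, div_one, sub_zero, mul_one, zero_add] at k1 k2 ⊢
    field_simp
    linear_combination (1 + z) * J1 - μ * μ' * J2 + μ' * k1 + μ * k2 + μ * Q * hz.symm
      + (μ * Q * z * (1 + z) - (1 + z) * P * μ'') * two
  · simp only [mul_zero, add_zero, div_one, sub_zero, mul_one] at k1 k2 ⊢
    field_simp
    linear_combination (1 + z) * J1 - μ * μ' * J2 + μ' * k1 + μ * k2 + μ' * R * hz.symm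
      + (μ' * R * z * (1 + z) - (1 + z) * P * μ'') * two
  · have e3 : (1 : K) + 1 = 0 := by linear_combination two
    simp only [mul_one, e3, mul_zero, add_zero, div_one] at k1 k2 ⊢
    field_simp
    linear_combination (1 + z + l) * J1 - μ * μ' * J2 + μ' * k1 + μ * k2 + P * μ'' * hz.symm
      - ((1 + z) * P * μ'' + l * P * μ'') * two

lemma sw_SC (hc : SC c) (a : A) (h : A →+ K) (z l : K) (hz : z * z + z = l) (hl : l ≠ 0)
    (h01 : ∀ g, h g * h g = h g) (hq : ∀ g y, c g y ≠ 0 → qq c a g = l * h g) :
    SC (sw c a h z) where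
  two := hc.two
  symm x y := by unfold sw; rw [hc.symm x y, hc.symm (x + a)]; ring
  diag x := by unfold sw; rw [hc.diag, hc.diag]; ring
  zero x := by unfold sw ell; rw [hc.zero, hc.symm a 0, hc.zero]; ring
  jac x y w := by
    have r1 := closure_rel hc a h z l hz hl h01 hq x y
    have r2 := closure_rel hc a h z l hz hl h01 hq y w
    have r3 := closure_rel hc a h z l hz hl h01 hq w x
    have e1 : ∀ g g' : A, g + a + (g' + a) = g + g' := fun g g' => by
      have := hc.two a
      calc g + a + (g' + a) = g + g' + (a + a) := by abel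
        _ = _ := by rw [this, add_zero]
    have e2 : ∀ g g' : A, g + a + g' = g + g' + a := fun g g' => by abel
    have e3 : ∀ g g' : A, g + (g' + a) = g + g' + a := fun g g' => by abel
    have J0 := hc.jac x y w
    have J1 := hc.jac (x + a) (y + a) w
    have J2 := hc.jac x (y + a) (w + a)
    have J3 := hc.jac (x + a) y (w + a)
    rw [e1, e2 y w, e3 w x] at J1
    rw [e1, e2 w x, e3 x y] at J2
    rw [e1, e2 x y, e3 y w] at J3
    have d1 : sw c a h z (x + y) w = c (x + y) w +
      ell c a h z (x + y) * ell c a h z w * c (x + y + a) (w + a) := rfl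
    have d2 : sw c a h z (y + w) x = c (y + w) x +
      ell c a h z (y + w) * ell c a h z x * c (y + w + a) (x + a) := rfl
    have d3 : sw c a h z (w + x) y = c (w + x) y +
      ell c a h z (w + x) * ell c a h z y * c (w + x + a) (y + a) := rfl
    have d4 : sw c a h z x y = c x y + ell c a h z x * ell c a h z y * c (x + a) (y + a) := rfl
    have d5 : sw c a h z y w = c y w + ell c a h z y * ell c a h z w * c (y + a) (w + a) := rfl
    have d6 : sw c a h z w x = c w x + ell c a h z w * ell c a h z x * c (w + a) (x + a) := rfl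
    rw [d1, d2, d3]
    linear_combination J0 + ell c a h z x * ell c a h z y * J1 +
      ell c a h z y * ell c a h z w * J2 + ell c a h z x * ell c a h z w * J3
      - ell c a h z w * c (x + y + a) (w + a) * r1 - ell c a h z x * c (y + w + a) (x + a) * r2
      - ell c a h z y * c (w + x + a) (y + a) * r3
      + c (x + y) w * d4 + c (y + w) x * d5 + c (w + x) y * d6

lemma qq_sw (hc : SC c) (a : A) (h : A →+ K) (z l : K) (hz : z * z + z = l) (hl : l ≠ 0)
    (h01 : ∀ g, h g * h g = h g) (hq : ∀ g y, c g y ≠ 0 → qq c a g = l * h g) (x g : A) :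
    qq (sw c a h z) x g = qq c x g + ell c a h z x ^ 2 * qq c (x + a) g +
      (qq c x a / (1 + z * h x)) * (qq c a g / (1 + z * h g)) := by
  have two : (2 : K) = 0 := CharTwo.two_eq_zero
  have r1 := closure_rel hc a h z l hz hl h01 hq x g
  have J := hc.jac x (x + a) (g + a)
  have e1 : x + (x + a) = a := by rw [← add_assoc, hc.two, zero_add]
  have e2 : x + a + (g + a) = x + g := by
    have := hc.two a
    calc x + a + (g + a) = x + g + (a + a) := by abel
      _ = _ := by rw [this, add_zero]
  have e3 : g + a + x = x + g + a := by abel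
  have e4 : x + a + g = x + g + a := by abel
  rw [e1, e2, e3, hc.symm (x + g) x, hc.symm (g + a) x, hc.symm (x + g + a) (x + a)] at J
  have d1 : sw c a h z x (x + g) = c x (x + g) +
    ell c a h z x * ell c a h z (x + g) * c (x + a) (x + g + a) := rfl
  have d2 : sw c a h z x g = c x g + ell c a h z x * ell c a h z g * c (x + a) (g + a) := rfl
  have d3 : qq c x a / (1 + z * h x) = ell c a h z x * c x (x + a) := by
    unfold qq ell; rw [hc.symm x a]; ring
  have d4 : qq c a g / (1 + z * h g) = ell c a h z g * c a (g + a) := by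
    unfold qq ell; rw [add_comm a g]; ring
  rw [d3, d4]
  unfold qq
  rw [d1, e4]
  linear_combination c x (x + g) * d2 - ell c a h z x * c (x + a) (x + g + a) * r1 +
    ell c a h z x * ell c a h z g * J -
    ell c a h z x * ell c a h z g * c x (x + a) * c a (g + a) * two

end switch

theorem no_cyc {K : Type*} [Field K] [CharP K 2] [IsAlgClosed K] (k : ℕ) (hk : 2 ≤ k) :
    ∀ (A : Type u) [AddCommGroup A] (c : A → A → K) (a : ℕ → A) (h : ℕ → A →+ K) (lam : ℕ → K),
      SC c → (∀ g, h 0 g * h 0 g = h 0 g) →
      (∀ i < k, ∀ j < k, h i (a j) = if i = j then 1 else 0) →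
      (∀ i < k, lam i ≠ 0) →
      (∀ i < k, ∀ g y, c g y ≠ 0 → qq c (a i) g = lam i * h ((i + 1) % k) g) →
      (∀ i < k, ∃ y, c (a i) y ≠ 0) →
      (∀ g, (∀ i < k, g ≠ a i) → ∀ y, qq c g y = 0) → False := by
  induction k, hk using Nat.le_induction with
  | base =>
    intro A _ c a h lam hc _ hd hl hq hs hn
    obtain ⟨y0, hy0⟩ := hs 0 (by norm_num)
    obtain ⟨y1, hy1⟩ := hs 1 (by norm_num)
    have q0 := hq 0 (by norm_num) _ _ hy1
    have q1 := hq 1 (by norm_num) _ _ hy0
    have d00 := hd 0 (by norm_num) 0 (by norm_num)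
    have d11 := hd 1 (by norm_num) 1 (by norm_num)
    have d01 := hd 0 (by norm_num) 1 (by norm_num)
    have d10 := hd 1 (by norm_num) 0 (by norm_num)
    norm_num at q0 q1 d00 d11 d01 d10
    rw [d11, mul_one] at q0
    rw [d00, mul_one] at q1
    have n0 : qq c (a 0) (a 1) ≠ 0 := by rw [q0]; exact hl 0 (by norm_num)
    have n1 : qq c (a 1) (a 0) ≠ 0 := by rw [q1]; exact hl 1 (by norm_num)
    have := hn (a 0 + a 1) (by
      intro i hi h2
      have e0 := congrArg (h 0) h2
      have e1 := congrArg (h 1) h2
      rw [map_add, d00, d01] at e0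
      rw [map_add, d10, d11] at e1
      interval_cases i
      · rw [d10] at e1; simp at e1
      · rw [d01] at e0; simp at e0) (a 0)
    unfold qq at this n0 n1
    have e : a 0 + a 1 + a 0 = a 1 := by rw [add_right_comm, hc.two, zero_add]
    rw [e, hc.symm _ (a 0), hc.symm _ (a 1)] at this
    rw [add_comm (a 1) (a 0)] at n1
    rcases mul_eq_zero.1 this with h3 | h3
    · exact n0 (by rw [h3, mul_zero])
    · exact n1 (by rw [h3, mul_zero])
  | succ k hk ih =>
    intro A _ c a h lam hc h01 hd hl hq hs hn
    obtain ⟨z, hz⟩ : ∃ z : K, z * z + z = lam k := by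
      obtain ⟨z, hz⟩ := IsAlgClosed.exists_root
        (Polynomial.X ^ 2 + Polynomial.X - Polynomial.C (lam k) : Polynomial K) (by
          have : (Polynomial.X ^ 2 + Polynomial.X - Polynomial.C (lam k) : Polynomial K).degree
            = 2 := by compute_degree!
          rw [this]; decide)
      refine ⟨z, ?_⟩
      simp only [Polynomial.IsRoot.def, Polynomial.eval_sub, Polynomial.eval_add,
        Polynomial.eval_pow, Polynomial.eval_X, Polynomial.eval_C] at hz
      linear_combination hz
    have hlk := hl k (by omega)
    have hz0 : z ≠ 0 := by rintro rfl; apply hlk; rw [← hz]; ring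
    have hz1 : 1 + z ≠ 0 := by
      intro h0; apply hlk; rw [← hz]; linear_combination z * h0
    have hqa : ∀ g y, c g y ≠ 0 → qq c (a k) g = lam k * h 0 g := by
      intro g y hy
      have := hq k (by omega) g y hy
      rwa [Nat.mod_self] at this
    have hS := sw_SC hc (a k) (h 0) z (lam k) hz hlk h01 hqa
    have hQ := qq_sw hc (a k) (h 0) z (lam k) hz hlk h01 hqa
    have hker : ∀ i < k, a i ∈ (h k).ker := by
      intro i hi
      rw [AddMonoidHom.mem_ker, hd k (by omega) i (by omega), if_neg (by omega)]
    have hkk : h k (a k) = 1 := by rw [hd k (by omega) k (by omega), if_pos rfl]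
    -- shifted elements are not basis vectors
    have hshift : ∀ g, h k g = 0 → ∀ y,
        ell c (a k) (h 0) z g ^ 2 * qq c (g + a k) y = 0 := by
      intro g hg y
      by_cases g0 : g = 0
      · rw [g0]; unfold ell; rw [hc.symm, hc.zero]; simp
      rw [hn (g + a k), mul_zero]
      intro j hj e
      have e1 := congrArg (h k) e
      rw [map_add, hg, hkk, hd k (by omega) j hj] at e1
      have : k = j := by by_contra h3; rw [if_neg h3] at e1; simp at e1
      subst this
      exact g0 (by simpa using e)
    have hq' : ∀ i < k, ∀ g y, h k g = 0 → c g y ≠ 0 → qq (sw c (a k) (h 0) z) (a i) g =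
        (if i + 1 = k then lam i * z else lam i) * h ((i + 1) % k) g := by
      intro i hi g y hg hy
      obtain ⟨y', hy'⟩ := hs k (by omega)
      rw [hQ, hshift _ (hker i hi), hq i (by omega) g y hy, hq i (by omega) _ y' hy',
        hqa g y hy, Nat.mod_eq_of_lt (by omega : i + 1 < k + 1), hd (i + 1) (by omega) k (by omega)]
      split_ifs with h3
      · rw [h3, hg, Nat.mod_self, hd 0 (by omega) i (by omega), if_neg (by omega)]
        have h4 : h 0 g * (h 0 g - 1) = 0 := by linear_combination h01 g
        rcases mul_eq_zero.1 h4 with h5 | h5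
        · rw [h5]; simp
        · rw [sub_eq_zero.1 h5]
          field_simp
          linear_combination lam i * hz.symm
      · rw [Nat.mod_eq_of_lt (by omega : i + 1 < k)]; simp
    refine ih (h k).ker (fun x y => sw c (a k) (h 0) z x y)
      (fun i => if hi : i < k then ⟨a i, hker i hi⟩ else 0)
      (fun i => (h i).comp (h k).ker.subtype) (fun i => if i + 1 = k then lam i * z else lam i)
      (hS.comap (h k).ker.subtype (fun x => Subtype.ext (hc.two x))) (fun g => h01 g) ?_ ?_ ?_ ?_ ?_
    · intro i hi j hj
      simp only [dif_pos hj, AddMonoidHom.comp_apply, AddSubgroup.coe_subtype]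
      exact hd i (by omega) j (by omega)
    · intro i hi
      have := hl i (by omega)
      split_ifs
      · exact mul_ne_zero this hz0
      · exact this
    · intro i hi g y hy
      simp only [dif_pos hi, AddMonoidHom.comp_apply, AddSubgroup.coe_subtype]
      have hg : ∃ y', c g y' ≠ 0 := by
        by_contra h3
        push Not at h3
        apply hy
        unfold sw ell
        rw [h3, hc.symm (a k) g, h3]; simp
      obtain ⟨y', hy'⟩ := hg
      exact hq' i hi g y' g.2 hy'
    · intro i hi
      have hj : (i + 1) % k < k := Nat.mod_lt _ (by omega)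
      obtain ⟨y', hy'⟩ := hs ((i + 1) % k) (by omega)
      have h3 := hq' i hi _ y' (hker _ hj) hy'
      rw [hd _ (by omega) _ (by omega), if_pos rfl, mul_one] at h3
      refine ⟨⟨a ((i + 1) % k), hker _ hj⟩, ?_⟩
      simp only [dif_pos hi]
      intro h4
      unfold qq at h3
      rw [h4, zero_mul] at h3
      have := hl i (by omega)
      split_ifs at h3
      · exact mul_ne_zero this hz0 h3.symm
      · exact this h3.symm
    · intro g hg y
      have hg' : ∀ i < k + 1, (g : A) ≠ a i := by
        intro i hi e
        rcases Nat.lt_succ_iff_lt_or_eq.1 hi with h3 | h3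
        · apply hg i h3
          simp only [dif_pos h3]
          exact Subtype.ext e
        · have := g.2
          rw [AddMonoidHom.mem_ker, e, h3, hkk] at this
          simp at this
      have := hQ g y
      rw [hshift _ g.2, hn g hg', hn g hg'] at this
      simpa [qq] using this

end Pool.Agent.MP_9adac4_al
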